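import Pool.Agent.Lib.MP_7ed551_gt.Cy.D.Sim2

/-! The order of a curve in fibred coordinates. -/

open scoped ContDiff Topology
open Set Filter Metric Complex

noncomputable section

namespace Pool.Agent.Lib.MP_7ed551_gt.Cy

open Pool.Agent.Lib.MP_ccffa6_gt (px py JHol)

variable {J : E → E →L[ℝ] E} {v : ℂ → E}

theorem tri_snd (hv : Cv J v) (s h : ℂ) : fderiv ℝ (fun s => (v s).2) s h = (fderiv ℝ v s h).2 := by
  rw [fderiv.snd (hv.sm.differentiable (by simp) s)]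
  rfl

theorem Fib.mJ_fderiv (hJ : Fib J) (hv : Cv J v) : ∀ᶠ s in 𝓝 (0 : ℂ), ∀ h,
    mJ (J (v s)) (fderiv ℝ (fun s => (v s).2) s h) = h * mJ (J (v s)) (px (fun s => (v s).2) s) := by
  filter_upwards [hv.hol] with s hs h
  rw [px, tri_snd hv, tri_snd hv, ← hJ.MJ_snd, ← hJ.MJ_snd, fderiv_px_py, hs, map_add, map_smul,
    map_smul, MJ_j (hJ.sq _), ← px]
  conv_rhs => rw [← re_add_im h]
  simp only [Prod.snd_add, Prod.smul_snd, real_smul, smul_eq_mul]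
  ring

theorem tri_near {m : ℂ → ℂ →L[ℝ] ℂ} (hm : Tendsto m (𝓝 0) (𝓝 (ContinuousLinearMap.id ℝ ℂ)))
    {η : ℝ} (h0 : 0 < η) (h1 : η ≤ 1 / 2) :
    ∀ᶠ s in 𝓝 (0 : ℂ), ∀ x, ‖m s x - x‖ ≤ η * ‖x‖ ∧ ‖x‖ ≤ 2 * ‖m s x‖ := by
  filter_upwards [(tendsto_iff_norm_sub_tendsto_zero.1 hm).eventually_le_const h0] with s hs x
  have h2 : ‖m s x - x‖ ≤ η * ‖x‖ := (ContinuousLinearMap.le_of_opNorm_le _ hs x :)
  refine ⟨h2, ?_⟩
  linarith [norm_le_norm_add_norm_sub' x (m s x), norm_sub_rev x (m s x),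
    mul_le_mul_of_nonneg_right h1 (norm_nonneg x)]

theorem tri_ineq {a : ℂ → ℂ} {m : ℂ → ℂ →L[ℝ] ℂ} (ha : ContDiff ℝ ∞ a) (sm : ContDiff ℝ ∞ m)
    (hm : Tendsto m (𝓝 0) (𝓝 (ContinuousLinearMap.id ℝ ℂ)))
    (h1 : ∀ᶠ s in 𝓝 (0 : ℂ), ∀ h, m s (fderiv ℝ a s h) = h * m s (px a s)) :
    ∃ C : ℝ, ∀ᶠ s in 𝓝 (0 : ℂ), ‖dbar (fun s => m s (px a s)) s‖ ≤ C * ‖m s (px a s)‖ := by
  have d1 : Differentiable ℝ (fderiv ℝ a) :=
    (ha.fderiv_right (m := ∞) le_rfl).differentiable (by simp)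
  have d2 : ∀ s h, HasFDerivAt (fun s => m s (fderiv ℝ a s h)) _ s := fun s h =>
    (sm.differentiable (by simp) s).hasFDerivAt.clm_apply
      ((d1 s).hasFDerivAt.clm_apply (hasFDerivAt_const h s))
  refine ⟨2 * (‖fderiv ℝ m 0‖ + 1), ?_⟩
  filter_upwards [h1.eventually_nhds, tri_near hm one_half_pos le_rfl,
    (sm.continuous_fderiv (by simp)).norm.continuousAt.eventually_le_const (lt_add_one _)]
    with s h2 h3 h4
  have h5 := DFunLike.congr_fun ((d2 s I).unique (((d2 s 1).const_mul I).congr_of_eventuallyEq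
    (h2.mono fun s hs => hs I))) 1
  have h6 := ((contDiff_infty.1 ha 2).contDiffAt (x := s)).isSymmSndFDerivAt (by simp) I 1
  have h7 : dbar (fun s => m s (px a s)) s =
      -I / 2 * (fderiv ℝ m s 1 (fderiv ℝ a s I) - fderiv ℝ m s I (px a s)) := by
    rw [dbar, px, py, show fderiv ℝ (fun s => m s (px a s)) s = _ from (d2 s 1).fderiv]
    simp [h6, px] at h5 ⊢
    linear_combination I / 2 * h5 + (m s (fderiv ℝ (fderiv ℝ a) s 1 1) +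
      fderiv ℝ m s 1 (fderiv ℝ a s 1)) / 2 * I_mul_I
  have h8 : ∀ h x, ‖h‖ = 1 → ‖m s x‖ = ‖m s (px a s)‖ →
      ‖fderiv ℝ m s h x‖ ≤ (‖fderiv ℝ m 0‖ + 1) * (2 * ‖m s (px a s)‖) := fun h x e1 e2 => by
    refine ((fderiv ℝ m s).le_opNorm₂ h x).trans ?_
    rw [e1, mul_one, ← e2]
    exact mul_le_mul h4 (h3 x).2 (norm_nonneg _) (by positivity)
  rw [h7, norm_mul, norm_div, norm_neg, norm_I, norm_ofNat]
  linarith [norm_sub_le (fderiv ℝ m s 1 (fderiv ℝ a s I)) (fderiv ℝ m s I (px a s)),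
    h8 1 (fderiv ℝ a s I) norm_one (by simp [h2.self_of_nhds I]), h8 I _ norm_I rfl]

theorem tri_m (hJ : Fib J) (hv : Cv J v) : (ContDiff ℝ ∞ fun s => mJ (J (v s))) ∧
    Tendsto (fun s => mJ (J (v s))) (𝓝 0) (𝓝 (ContinuousLinearMap.id ℝ ℂ)) := by
  have h := contDiff_mJ.comp (hJ.sm.comp hv.sm)
  refine ⟨h, h.continuous.tendsto' _ _ (ContinuousLinearMap.ext fun x => ?_)⟩
  simp [hv.zero, hJ.zero, mJ_J0]

theorem Fib.p_ineq (hJ : Fib J) (hv : Cv J v) : ∃ C : ℝ, ∀ᶠ s in 𝓝 (0 : ℂ),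
    ‖dbar (fun s => mJ (J (v s)) (px (fun s => (v s).2) s)) s‖ ≤
      C * ‖mJ (J (v s)) (px (fun s => (v s).2) s)‖ :=
  tri_ineq hv.sm.snd (tri_m hJ hv).1 (tri_m hJ hv).2 (hJ.mJ_fderiv hv)

theorem ord_of_lim {a p : ℂ → ℂ} {m : ℂ → ℂ →L[ℝ] ℂ} {l : ℕ} {c : ℂ} (ha : ContDiff ℝ ∞ a)
    (h0 : a 0 = 0) (hc : c ≠ 0) (hp : ContinuousAt p 0)
    (hm : Tendsto m (𝓝 0) (𝓝 (ContinuousLinearMap.id ℝ ℂ)))
    (h1 : ∀ᶠ s in 𝓝 (0 : ℂ), ∀ h, m s (fderiv ℝ a s h) = h * p s)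
    (h2 : Tendsto (fun s => p s / s ^ l) (𝓝[≠] 0) (𝓝 c)) : Ord a l c := by
  refine ⟨ha, h0, hc, fun ε hε => ?_⟩
  obtain ⟨η, e0, e1, e2⟩ : ∃ η : ℝ, 0 < η ∧ η ≤ 1 / 2 ∧ η * (2 * ‖c‖ + 2) ≤ ε :=
    ⟨min (1 / 2) (ε / (2 * ‖c‖ + 2)), by positivity, min_le_left _ _,
      (le_div_iff₀ (by positivity)).1 (min_le_right _ _)⟩
  have h3 : ∀ᶠ s in 𝓝[≠] (0 : ℂ), ‖p s - c * s ^ l‖ ≤ η * ‖s‖ ^ l := by
    filter_upwards [(tendsto_iff_norm_sub_tendsto_zero.1 h2).eventually_le_const e0,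
      self_mem_nhdsWithin] with s hs h
    rw [← div_mul_cancel₀ (p s) (pow_ne_zero l h), ← sub_mul, norm_mul, norm_pow]
    exact mul_le_mul_of_nonneg_right hs (by positivity)
  have h4 : ∀ᶠ s in 𝓝 (0 : ℂ), ‖p s - c * s ^ l‖ ≤ η * ‖s‖ ^ l := by
    rw [← nhdsNE_sup_pure, eventually_sup, eventually_pure]
    have c1 : ContinuousAt (fun s => ‖p s - c * s ^ l‖) 0 := by fun_prop
    have c2 : ContinuousAt (fun s : ℂ => η * ‖s‖ ^ l) 0 := by fun_prop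
    exact ⟨h3, le_of_tendsto_of_tendsto (c1.tendsto.mono_left nhdsWithin_le_nhds)
      (c2.tendsto.mono_left nhdsWithin_le_nhds) h3⟩
  filter_upwards [h1, h4, tri_near hm e0 e1] with s h5 h6 h7 h
  obtain ⟨h8, h9⟩ := h7 (fderiv ℝ a s h)
  rw [h5] at h8 h9
  have h10 : ‖p s‖ ≤ (‖c‖ + 1 / 2) * ‖s‖ ^ l := by
    have := norm_le_norm_add_norm_sub' (p s) (c * s ^ l)
    rw [norm_mul, norm_pow] at this
    linarith [mul_le_mul_of_nonneg_right e1 (pow_nonneg (norm_nonneg s) l)]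
  have h11 := norm_sub_le_norm_sub_add_norm_sub (fderiv ℝ a s h) (h * p s) (c * s ^ l * h)
  rw [norm_sub_rev _ (h * p s), mul_comm _ h, ← mul_sub, norm_mul] at h11
  rw [norm_mul] at h9
  have h12 := mul_le_mul_of_nonneg_left h10 (norm_nonneg h)
  rw [mul_comm _ h]
  linarith [mul_le_mul_of_nonneg_left h6 (norm_nonneg h), mul_le_mul_of_nonneg_left h9 e0.le,
    mul_le_mul_of_nonneg_left h12 e0.le,
    mul_le_mul_of_nonneg_right e2 (by positivity : 0 ≤ ‖s‖ ^ l * ‖h‖)]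

theorem tri_dich {a : ℂ → ℂ} {m : ℂ → ℂ →L[ℝ] ℂ} (ha : ContDiff ℝ ∞ a) (h0 : a 0 = 0)
    (sm : ContDiff ℝ ∞ m) (hm : Tendsto m (𝓝 0) (𝓝 (ContinuousLinearMap.id ℝ ℂ)))
    (h1 : ∀ᶠ s in 𝓝 (0 : ℂ), ∀ h, m s (fderiv ℝ a s h) = h * m s (px a s)) :
    (∀ᶠ s in 𝓝 (0 : ℂ), a s = 0) ∨ ∃ l c, Ord a l c := by
  obtain ⟨C, hC⟩ := tri_ineq ha sm hm h1
  have hp : ContDiff ℝ ∞ fun s => m s (px a s) :=
    sm.clm_apply ((ha.fderiv_right (m := ∞) le_rfl).clm_apply contDiff_const)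
  refine (ord_dich hp.continuous.continuousAt ((hC.filter_mono nhdsWithin_le_nhds).mono fun s hs =>
    ⟨(contDiff_infty.1 hp 1).contDiffAt, hs⟩)).imp (fun h2 => ?_) fun ⟨l, c, hc, h2⟩ =>
      ⟨l, c, ord_of_lim ha h0 hc hp.continuous.continuousAt hm h1 (by simpa using h2)⟩
  obtain ⟨r, hr, h3⟩ := eventually_nhds_iff_ball.1 (h1.and (h2.and (tri_near hm one_half_pos le_rfl)))
  filter_upwards [ball_mem_nhds 0 hr] with s hs
  refine (isOpen_ball.is_const_of_fderiv_eq_zero (convex_ball _ _).isPreconnected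
    (ha.differentiable (by simp)).differentiableOn (fun y hy => ContinuousLinearMap.ext fun h => ?_)
    hs (mem_ball_self hr)).trans h0
  simpa [(h3 y hy).1 h, (h3 y hy).2.1] using ((h3 y hy).2.2 (fderiv ℝ a y h)).2

theorem Fib.tri (hJ : Fib J) (hv : Cv J v) : (∀ᶠ s in 𝓝 (0 : ℂ), v s = 0) ∨
    (∃ l c, Ord (fun s => (v s).2) l c) ∨
    ((∀ᶠ s in 𝓝 (0 : ℂ), (v s).2 = 0) ∧ ∃ l c, Ord (fun s => (v s).1) l c) := by
  obtain h | h := tri_dich hv.sm.snd (congrArg Prod.snd hv.zero) (tri_m hJ hv).1 (tri_m hJ hv).2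
    (hJ.mJ_fderiv hv)
  swap
  · exact .inr (.inl h)
  refine (tri_dich (m := fun _ => .id ℝ ℂ) hv.sm.fst (congrArg Prod.fst hv.zero) contDiff_const
    tendsto_const_nhds ?_).imp (fun h1 => (h1.and h).mono fun s hs => Prod.ext hs.1 hs.2)
    fun h1 => .inr ⟨h, h1⟩
  filter_upwards [hv.hol, h.eventually_nhds] with s h1 h2 x
  have h3 : px v s = ((px v s).1, 0) := Prod.ext rfl <| by
    rw [px, ← tri_snd hv, EventuallyEq.fderiv_eq (f := fun _ => (0 : ℂ)) h2]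
    simp
  rw [h3, hJ.fib] at h1
  rw [px, fderiv.fst (hv.sm.differentiable (by simp) s)]
  change (fderiv ℝ v s x).1 = x * (px v s).1
  rw [fderiv_px_py, h1]
  conv_rhs => rw [← re_add_im x]
  simp only [Prod.fst_add, Prod.smul_fst, real_smul]
  ring

end Pool.Agent.Lib.MP_7ed551_gt.Cy
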