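import Pool.Agent.Lib.MP_7ed551_gt.Cy.D.Asy
import Pool.Agent.Lib.MP_7ed551_gt.Cy.D.Tri

/-! A limit of embedded curves has no cusp. -/

open scoped ContDiff Topology
open Set Filter Metric Complex

noncomputable section

namespace Pool.Agent.Lib.MP_7ed551_gt.Cy

open Pool.Agent.Lib.MP_ccffa6_gt (px py JHol)

theorem cusp_lip (a b : E →L[ℝ] E) : ‖MJ a - MJ b‖ ≤ ‖a - b‖ := by
  refine ContinuousLinearMap.opNorm_le_bound _ (norm_nonneg _) fun x => ?_
  have h : (MJ a - MJ b) x = -((1 / 2 : ℝ) • I • (a - b) x) := by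
    simp only [sub_apply, MJ_apply, smul_sub]
    abel
  have h1 := (a - b).le_opNorm x
  have h2 := norm_nonneg ((a - b) x)
  rw [h, norm_neg, norm_smul, norm_smul, norm_I, Real.norm_of_nonneg (by norm_num)]
  linarith

theorem cusp_mem {r ρ : ℝ} (hr : 0 < r) (h : r ≤ ρ) {z : E} (hz : z ∈ closedBall (0 : E) 1) :
    r • z ∈ closedBall (0 : ℂ) ρ ×ˢ closedBall (0 : ℂ) ρ := by
  have h1 : ‖r • z‖ ≤ ρ := by
    rw [norm_smul, Real.norm_of_nonneg hr.le]
    exact (mul_le_of_le_one_right hr.le (mem_closedBall_zero_iff.1 hz)).trans h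
  exact ⟨mem_closedBall_zero_iff.2 ((norm_fst_le _).trans h1),
    mem_closedBall_zero_iff.2 ((norm_snd_le _).trans h1)⟩

theorem cusp_ne {w : ℂ → E} {j : ℂ → E →L[ℝ] E} (inj : Function.Injective w)
    (imm : ∀ s, px w s ≠ 0) {z : E} (h : ‖j z.2 - J0‖ < 2) :
    dd (fun s => MJ (j s)) w z ≠ 0 := by
  unfold dd
  split_ifs with e
  · rw [e]
    exact fun h0 => imm _ (MJ_inj h h0)
  · intro h0
    rcases smul_eq_zero.1 h0 with h1 | h1
    · exact e (sub_eq_zero.1 (inv_eq_zero.1 h1))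
    · exact e (inj (sub_eq_zero.1 (MJ_inj h h1)))

theorem Fib.cusp {J : E → E →L[ℝ] E} {v : ℂ → E} (hJ : Fib J) (hv : Cv J v)
    (hB : ¬∀ᶠ s in 𝓝[≠] (0 : ℂ), s ∈ Dbl v) {w : ℕ → ℂ → E} {j : ℕ → ℂ → E →L[ℝ] E} {ρ : ℝ}
    (hρ : 0 < ρ) (sw : ∀ n, ContDiff ℝ 1 (w n)) (cj : ∀ n, Continuous (j n))
    (sq : ∀ n s x, j n s (j n s x) = -x) (hol : ∀ n s, py (w n) s = j n s (px (w n) s))
    (inj : ∀ n, Function.Injective (w n)) (imm : ∀ n s, px (w n) s ≠ 0)
    (c1 : TendstoUniformlyOn (fun n => fderiv ℝ (w n)) (fderiv ℝ v) atTop (closedBall 0 ρ))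
    (c2 : TendstoUniformlyOn j (fun s => J (v s)) atTop (closedBall 0 ρ)) :
    fderiv ℝ v 0 ≠ 0 := by
  intro h0
  have dv : Differentiable ℝ v := hv.sm.differentiable (by simp)
  rcases hJ.tri hv with h | ⟨l, c, h⟩ | ⟨h, l, c, h'⟩
  · refine hB ?_
    filter_upwards [nhdsWithin_le_nhds h, self_mem_nhdsWithin] with s h1 h2
    exact ⟨0, Ne.symm h2, hv.zero.trans h1.symm⟩
  · have cJ : Continuous fun s => J (v s) := hJ.sm.continuous.comp hv.sm.continuous
    have cM : Continuous fun s => MJ (J (v s)) := contDiff_MJ.continuous.comp cJ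
    have cD : Continuous (fderiv ℝ v) := hv.sm.continuous_fderiv (by simp)
    have e0 : ∀ᶠ s in 𝓝 (0 : ℂ), ‖J (v s) - J0‖ < 1 := by
      have h1 : Continuous fun s => ‖J (v s) - J0‖ := (cJ.sub continuous_const).norm
      refine h1.continuousAt.eventually_lt continuousAt_const ?_
      simp [hv.zero, hJ.zero]
    obtain ⟨δ, hδ, hd⟩ := Metric.nhds_basis_closedBall.eventually_iff.1 e0
    have e1 : ∀ᶠ r : ℝ in 𝓝[>] 0, r ≤ min ρ δ :=
      nhdsWithin_le_nhds (eventually_le_nhds (lt_min hρ hδ))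
    obtain ⟨r, ⟨⟨g1, g2, g3⟩, hr1⟩, hr⟩ :=
      (((hJ.dd_deg hv h h0 hB).and e1).and self_mem_nhdsWithin).exists
    have hr : 0 < r := hr
    have r1 : r ≤ ρ := hr1.trans (min_le_left _ _)
    have r2 : r ≤ δ := hr1.trans (min_le_right _ _)
    refine g3.ne' (dg_limit (H := fun n z => dd (fun s => MJ (j n s)) (w n) (r • z)) g1 g2 ?_ ?_)
    · filter_upwards [Metric.tendstoUniformlyOn_iff.1 c2 1 one_pos] with n hn
      refine ⟨?_, fun z hz => cusp_ne (inj n) (imm n) ?_⟩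
      · have h1 : ContinuousOn (dd (fun s => MJ (j n s)) (w n)) (univ ×ˢ univ) :=
          dd_cont (contDiff_MJ.continuous.comp (cj n)) (sw n) fun s _ => by
            rw [hol n s]
            exact MJ_j (sq n s) _
        rw [univ_prod_univ, continuousOn_univ] at h1
        exact (h1.comp (continuous_const_smul r)).continuousOn
      · have h1 := hn _ (cusp_mem hr r1 hz).2
        have h2 := hd (cusp_mem hr r2 hz).2
        rw [dist_comm, dist_eq_norm] at h1
        have h3 := norm_sub_le_norm_sub_add_norm_sub (j n (r • z).2) (J (v (r • z).2)) J0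
        linarith
    · obtain ⟨L, hL⟩ := (isCompact_closedBall (0 : ℂ) ρ).exists_bound_of_continuousOn cD.continuousOn
      obtain ⟨K, hK⟩ := (isCompact_closedBall (0 : ℂ) ρ).exists_bound_of_continuousOn cM.continuousOn
      have L0 : 0 ≤ L := (norm_nonneg _).trans (hL 0 (mem_closedBall_self hρ.le))
      have K0 : 0 ≤ K := (norm_nonneg _).trans (hK 0 (mem_closedBall_self hρ.le))
      refine Metric.tendstoUniformlyOn_iff.2 fun ε hε => ?_
      obtain ⟨η, h1, h2, h3⟩ : ∃ η : ℝ, 0 < η ∧ η ≤ 1 ∧ η * (L + K + 2) ≤ ε :=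
        ⟨min 1 (ε / (L + K + 2)), by positivity, min_le_left _ _,
          (le_div_iff₀ (by positivity)).1 (min_le_right _ _)⟩
      filter_upwards [Metric.tendstoUniformlyOn_iff.1 c2 η h1,
        Metric.tendstoUniformlyOn_iff.1 c1 η h1] with n a1 a2 z hz
      have b1 : ∀ s ∈ closedBall (0 : ℂ) ρ, ‖MJ (J (v s)) - MJ (j n s)‖ ≤ η := fun s hs =>
        (cusp_lip _ _).trans (by rw [← dist_eq_norm]; exact (a1 s hs).le)
      have b2 : ∀ s ∈ closedBall (0 : ℂ) ρ, ‖MJ (j n s)‖ ≤ K + 1 := fun s hs => by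
        have h4 := b1 s hs
        have h5 := hK s hs
        have h6 := norm_sub_norm_le (MJ (j n s)) (MJ (J (v s)))
        rw [norm_sub_rev] at h6
        linarith
      have b3 : ∀ s ∈ closedBall (0 : ℂ) ρ, ‖fderiv ℝ v s - fderiv ℝ (w n) s‖ ≤ η := fun s hs => by
        rw [← dist_eq_norm]
        exact (a2 s hs).le
      have b4 := dd_sub (M := fun s => MJ (J (v s))) (M' := fun s => MJ (j n s))
        (convex_closedBall (0 : ℂ) ρ) dv ((sw n).differentiable one_ne_zero) b1 hL b2 b3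
        (cusp_mem hr r1 (sphere_subset_closedBall hz))
      rw [dist_eq_norm]
      refine b4.trans_lt ?_
      linarith
  · have l1 : 1 ≤ l := h'.pos (by
      rw [fderiv.fst (dv 0), h0]
      rfl)
    obtain ⟨σ, hσ, -⟩ := h'.sheets
    obtain ⟨e, he⟩ := Rt_nonempty l1
    refine hB ?_
    filter_upwards [nhdsWithin_le_nhds h, nhdsWithin_le_nhds ((hσ e he).tendsto.eventually h),
      nhdsWithin_le_nhds (hσ e he).eq, (hσ e he).ne he.2] with s h1 h2 h3 h4
    exact ⟨σ e s, h4, Prod.ext h3 (h2.trans h1.symm)⟩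

end Pool.Agent.Lib.MP_7ed551_gt.Cy
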