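import Pool.Agent.Lib.MP_7ed551_gt.Cy.D.Glob
import Pool.Agent.Lib.MP_7ed551_gt.Cy.D.Cusp

/-! A limit of embedded leaves is immersed. -/

open scoped ContDiff Topology
open Set Filter Metric Complex

noncomputable section

namespace Pool.Agent.Lib.MP_7ed551_gt.Cy

open Pool.Agent.Lib.MP_ccffa6_gt (px py JHol)

theorem unif_comp {X Y : Type} [PseudoMetricSpace X] [PseudoMetricSpace Y] {g : X → Y}
    (hg : Continuous g) {f : ℕ → ℂ → X} {f₀ : ℂ → X} (h₀ : Continuous f₀)
    (h : TendstoLocallyUniformly f f₀ atTop) {S : Set ℂ} (hS : IsCompact S) :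
    TendstoUniformlyOn (fun n s => g (f n s)) (fun s => g (f₀ s)) atTop S := fun r hr => by
  have h1 := (hS.image h₀).uniformContinuousAt_of_continuousAt g (fun _ _ => hg.continuousAt) hr
  filter_upwards [(tendstoLocallyUniformly_iff_forall_isCompact.1 h S hS) _ h1] with n hn s hs
  exact hn s hs (mem_image_of_mem _ hs)

theorem limStmt_of (h : SmallStmt) : LimStmt := by
  intro J t t₀ u u₀ c sJ sq ⟨K, hK, hK'⟩ ht hu h₀ c0 c1 ζ h0
  have hJ : Acs fun x => J (t₀, x) := ⟨sJ.comp (by fun_prop), fun x => sq (t₀, x)⟩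
  obtain ⟨J', P, Q, hF, hP, hp, h1⟩ := exists_fib h hJ (u₀ ζ)
  have h2 : ∀ᶠ x in 𝓝 (u₀ (ζ + 0)), J' (P x) = push P Q x (J (t₀, x)) := by rwa [add_zero]
  obtain ⟨hv, h3⟩ := cv_of_hol h₀.sm h₀.hol hP hp h1
  have ct : Continuous fun s : ℂ => ζ + s := by fun_prop
  have cu := h₀.sm.continuous.comp ct
  obtain ⟨ρ, hρ, h4⟩ := nhds_basis_closedBall.eventually_iff.1 (cu.continuousAt.eventually h2)
  have dP := hP.sm.differentiable (by simp)
  have hd : ∀ {w : ℂ → E}, ContDiff ℝ ∞ w → ∀ s, HasFDerivAt (fun s => w (ζ + s))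
      (fderiv ℝ w (ζ + s)) s := fun hw s =>
    (hasFDerivAt_comp_add_left ζ).2 (hw.differentiable (by simp) _).hasFDerivAt
  have h5 : ∀ {w : ℂ → E}, ContDiff ℝ ∞ w → fderiv ℝ (fun s => P (w (ζ + s))) =
      fun s => (fderiv ℝ P (w (ζ + s))).comp (fderiv ℝ w (ζ + s)) := fun hw =>
    funext fun s => ((dP _).hasFDerivAt.comp s (hd hw s)).fderiv
  have h6 : ∀ n s, py (fun s => u n (ζ + s)) s =
      J (t n, u n (ζ + s)) (px (fun s => u n (ζ + s)) s) := fun n s => by
    rw [px, py, (hd (hu n).1 s).fderiv]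
    exact ((hu n).2.1 (ζ + s) (mem_univ _)).1
  have c0' := c0.comp _ ct
  refine hF.cusp hv (fun h7 => h₀.not_dbl h hJ hK (fun x => hK' (t₀, x)) ζ ?_)
    (w := fun n s => P (u n (ζ + s)))
    (j := fun n s => push P Q (u n (ζ + s)) (J (t n, u n (ζ + s)))) hρ
    (fun n => (hP.sm.comp ((hu n).1.comp (by fun_prop))).of_le (by simp)) (fun n => ?_)
    (fun n s => hP.push_sq _ (sq _)) (fun n s => (hP.hol (hd (hu n).1 s).differentiableAt
      (h6 n s)).2) (fun n s s' e => ?_) (fun n s e => ?_) ?_ ?_ ?_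
  · have h8 : Tendsto (fun s => s - ζ) (𝓝[≠] ζ) (𝓝[≠] 0) :=
      tendsto_nhdsWithin_iff.2 ⟨tendsto_nhdsWithin_of_tendsto_nhds
        (Continuous.tendsto' (by fun_prop) _ _ (sub_self ζ)),
        eventually_mem_nhdsWithin.mono fun s hs => sub_ne_zero.2 hs⟩
    refine (h8.eventually h7).mono fun s ⟨s', h9, e⟩ => ⟨ζ + s', fun h10 => h9 ?_, ?_⟩
    · rw [← h10, add_sub_cancel_left]
    · simpa only [hP.left, add_sub_cancel] using congrArg Q e
  · have cn := (hu n).1.continuous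
    have cJ := sJ.continuous
    exact hP.push_sm.continuous.comp (f := fun s => (u n (ζ + s), J (t n, u n (ζ + s))))
      (by fun_prop)
  · exact add_left_cancel ((hu n).2.2.1 (by simpa only [hP.left] using congrArg Q e))
  · rw [px, h5 (hu n).1] at e
    have h8 := hP.d_left (u n (ζ + s)) (px (u n) (ζ + s))
    exact (hu n).2.2.2 _ (h8.symm.trans ((congrArg _ e).trans (map_zero _)))
  · simp only [h5 (hu _).1, h5 h₀.sm]
    have h8 := hP.sm.continuous_fderiv (by simp)
    exact unif_comp (g := fun y : E × (ℂ →L[ℝ] E) => (fderiv ℝ P y.1).comp y.2) (by fun_prop)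
      (cu.prodMk ((h₀.sm.continuous_fderiv (by simp)).comp ct)) (c0'.prodMk (c1.comp _ ct))
      (isCompact_closedBall _ _)
  · have h8 : TendstoLocallyUniformly (fun n (_ : ℂ) => t n) (fun _ => t₀) atTop :=
      (tendstoUniformlyOn_univ.1 (ht.tendstoUniformlyOn_const _)).tendstoLocallyUniformly
    refine (unif_comp (g := fun y : ℝ × E => push P Q y.2 (J y))
      (hP.push_sm.continuous.comp (continuous_snd.prodMk sJ.continuous))
      (continuous_const.prodMk cu) (h8.prodMk c0') (isCompact_closedBall 0 ρ)).congr_right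
      fun s hs => (h4 hs).symm
  · have h8 := (h₀.hol ζ (mem_univ _)).1
    have h9 : fderiv ℝ u₀ ζ = 0 := ContinuousLinearMap.ext fun x => by
      simp [fderiv_px_py, h8, h0]
    simp [h5 h₀.sm, h9]

end Pool.Agent.Lib.MP_7ed551_gt.Cy
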