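import Pool.Agent.Lib.MP_7ed551_gt.Cy.D.Sim1

/-! The similarity principle. -/

open scoped ContDiff Topology
open Set Filter Metric Complex

noncomputable section

namespace Pool.Agent.Lib.MP_7ed551_gt.Cy

open Pool.Agent.Lib.MP_ccffa6_gt (px py JHol)
open Pool.Agent.NapOT (db CT Bd)

theorem sim_core {D : ℂ → ℂ} {U : Set ℂ} {C R : ℝ} (hU : IsOpen U) (hD : ContDiffOn ℝ 1 D U)
    (hb : ∀ s ∈ U, ‖dbar D s‖ ≤ C * ‖D s‖) (hR : ∀ s ∈ U, R < ‖s‖ → dbar D s = 0) :
    ∃ w : ℂ → ℂ, Continuous w ∧ Tendsto w (cocompact ℂ) (𝓝 0) ∧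
      DifferentiableOn ℂ (fun s => D s * exp (-w s)) U := by
  have hA : Bd (max C 0) R (U.indicator fun s => db D s / D s) := by
    refine ⟨?_, fun s => ?_, fun s hs => ?_⟩
    · rw [aestronglyMeasurable_indicator_iff hU.measurableSet]
      exact ((Pool.Agent.NapOT.measurable_db D).aemeasurable.div
        (hD.continuousOn.aemeasurable hU.measurableSet)).aestronglyMeasurable
    · by_cases hs : s ∈ U
      · rw [indicator_of_mem hs, norm_div]
        refine div_le_of_le_mul₀ (norm_nonneg _) (le_max_right _ _) ((hb s hs).trans ?_)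
        exact mul_le_mul_of_nonneg_right (le_max_left _ _) (norm_nonneg _)
      · rw [indicator_of_notMem hs, norm_zero]
        exact le_max_right _ _
    · by_cases hs' : s ∈ U
      · rw [indicator_of_mem hs', ← dbar_eq_db, hR s hs' hs, zero_div]
      · rw [indicator_of_notMem hs']
  set A : ℂ → ℂ := U.indicator fun s => db D s / D s with hAdef
  refine ⟨CT A, continuous_CT hA, tendsto_CT_zero hA, ?_⟩
  refine rado hU hD (continuous_exp.comp (continuous_CT hA).neg) fun s₀ hs₀ => ?_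
  have h0 : D s₀ ≠ 0 := hs₀.2
  have hV : IsOpen (U ∩ (fun s => D s / D s₀) ⁻¹' slitPlane) :=
    (hD.continuousOn.div_const _).isOpen_inter_preimage hU isOpen_slitPlane
  have hs₀V : s₀ ∈ U ∩ (fun s => D s / D s₀) ⁻¹' slitPlane :=
    ⟨hs₀.1, by simp [div_self h0]⟩
  have hne : ∀ s ∈ U ∩ (fun s => D s / D s₀) ⁻¹' slitPlane, D s ≠ 0 := fun s hs e =>
    slitPlane_ne_zero hs.2 (by simp [e])
  have hL : ContDiffOn ℝ 1 (fun s => log (D s / D s₀))
      (U ∩ (fun s => D s / D s₀) ⁻¹' slitPlane) := fun s hs =>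
    ContDiffAt.comp_contDiffWithinAt (g := log) (f := fun s => D s / D s₀) s
      ((contDiffAt_log hs.2).restrict_scalars ℝ)
      (((hD s hs.1).mono inter_subset_left).div_const _)
  have hH := hol_sub_CT hV hL hA fun s hs => by
    have hd : DifferentiableAt ℝ D s :=
      (hD.contDiffAt (hU.mem_nhds hs.1)).differentiableAt one_ne_zero
    have h1 : HasDerivAt (fun w => log (w / D s₀)) (1 / D s₀ / (D s / D s₀)) (D s) :=
      ((hasDerivAt_id (D s)).div_const (D s₀)).clog hs.2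
    rw [Pool.Agent.NapOT.db_comp (F := fun w => log (w / D s₀)) h1 hd, hAdef,
      indicator_of_mem hs.1]
    field_simp [hne s hs]
  have h2 : DifferentiableAt ℂ (fun s => D s₀ * exp (log (D s / D s₀) - CT A s)) s₀ :=
    ((hH.differentiableAt (hV.mem_nhds hs₀V)).cexp).const_mul _
  refine (h2.congr_of_eventuallyEq ?_).differentiableWithinAt
  filter_upwards [hV.mem_nhds hs₀V] with s hs
  rw [sub_eq_add_neg, exp_add, exp_log (div_ne_zero (hne s hs) h0)]
  show D s * exp (-CT A s) = _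
  field_simp

theorem sim2_ball {D : ℂ → ℂ} {c : ℂ} {C R : ℝ} (hc : 0 < R → ContinuousAt D c)
    (hD : ContDiffOn ℝ 1 D (ball c R \ {c}))
    (hb : ∀ s ∈ ball c R \ {c}, ‖dbar D s‖ ≤ C * ‖D s‖) :
    ∃ w : ℂ → ℂ, Continuous w ∧ DifferentiableOn ℂ (fun s => D s * exp (-w s)) (ball c R) := by
  obtain ⟨w, h1, -, h2⟩ := sim_core (R := ‖c‖ + R) (isOpen_ball.sdiff isClosed_singleton) hD hb
    fun s hs hlt => absurd hlt (not_lt.2 (norm_lt_of_mem_ball hs.1).le)
  refine ⟨w, h1, ?_⟩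
  rcases le_or_gt R 0 with hR | hR
  · rw [ball_eq_empty.2 hR]
    exact differentiableOn_empty
  · exact (differentiableOn_compl_singleton_and_continuousAt_iff (ball_mem_nhds c hR)).1
      ⟨h2, (hc hR).mul (continuous_exp.comp h1.neg).continuousAt⟩

theorem simStmt : SimStmt := by
  intro D U c C R hU hcl hc hD hb
  have hsub : ball c R \ {c} ⊆ U \ {c} :=
    sdiff_subset_sdiff_left (ball_subset_closedBall.trans hcl)
  obtain ⟨w, h1, h2⟩ := sim2_ball (D := D) (c := c) (C := C) (R := R)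
    (fun hR => hc.continuousAt (hU.mem_nhds (hcl (mem_closedBall_self hR.le))))
    ((hD.mono hsub).of_le (by simp)) fun s hs => hb s (hsub hs)
  refine ⟨w, _, h1, h2, fun ζ _ => ?_⟩
  rw [mul_assoc, ← exp_add, neg_add_cancel, exp_zero, mul_one]

theorem simGStmt : SimGStmt := by
  intro D C R hD hb hR
  obtain ⟨w, h1, h2, h3⟩ := sim_core (D := D) (C := C) (R := R) isOpen_univ
    (hD.of_le (by simp)).contDiffOn (fun s _ => hb s) fun s _ hs => hR s hs.le
  refine ⟨w, _, h1, h2, differentiableOn_univ.1 h3, fun ζ => ?_⟩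
  rw [mul_assoc, ← exp_add, neg_add_cancel, exp_zero, mul_one]

theorem ord_dich {D : ℂ → ℂ} {z : ℂ} {C : ℝ} (hc : ContinuousAt D z)
    (h : ∀ᶠ s in 𝓝[≠] z, ContDiffAt ℝ 1 D s ∧ ‖dbar D s‖ ≤ C * ‖D s‖) :
    (∀ᶠ s in 𝓝 z, D s = 0) ∨
      ∃ (l : ℕ) (c : ℂ), c ≠ 0 ∧ Tendsto (fun s => D s / (s - z) ^ l) (𝓝[≠] z) (𝓝 c) := by
  obtain ⟨r, hr, hh⟩ := Metric.mem_nhdsWithin_iff.1 h
  obtain ⟨w, h1, h2⟩ := sim2_ball (D := D) (c := z) (C := C) (R := r) (fun _ => hc)
    (fun s hs => (hh hs).1.contDiffWithinAt) fun s hs => (hh hs).2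
  have ha : AnalyticAt ℂ (fun s => D s * exp (-w s)) z := h2.analyticAt (ball_mem_nhds z hr)
  by_cases h0 : ∀ᶠ s in 𝓝 z, D s * exp (-w s) = 0
  · exact Or.inl (h0.mono fun s hs => (mul_eq_zero.1 hs).resolve_right (exp_ne_zero _))
  obtain ⟨l, k, hk, hk0, e⟩ := ha.exists_eventuallyEq_pow_smul_nonzero_iff.2 h0
  refine Or.inr ⟨l, k z * exp (w z), mul_ne_zero hk0 (exp_ne_zero _), ?_⟩
  have h3 : ContinuousAt (fun s => k s * exp (w s)) z :=
    hk.continuousAt.mul (continuous_exp.comp h1).continuousAt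
  refine (h3.tendsto.mono_left nhdsWithin_le_nhds).congr' ?_
  filter_upwards [self_mem_nhdsWithin, e.filter_mono nhdsWithin_le_nhds] with s hs hs'
  have h4 : (s - z) ^ l ≠ 0 := pow_ne_zero _ (sub_ne_zero.2 hs)
  rw [eq_div_iff h4, mul_right_comm, mul_comm (k s), ← smul_eq_mul, ← smul_eq_mul ((s - z) ^ l),
    ← hs', smul_eq_mul, mul_assoc, ← exp_add, neg_add_cancel, exp_zero, mul_one]

end Pool.Agent.Lib.MP_7ed551_gt.Cy
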