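import Pool.Agent.Lib.MP_7ed551_gt.Cy.D.Imm
import Pool.Agent.Lib.MP_7ed551_gt.Cy.D.Sim2

/-! Double points that accumulate at an immersed point. -/

open scoped ContDiff Topology
open Set Filter Metric Complex

noncomputable section

namespace Pool.Agent.Lib.MP_7ed551_gt.Cy

open Pool.Agent.Lib.MP_ccffa6_gt (px py JHol)

variable {J : E → E →L[ℝ] E} {u : ℂ → E} {c : ℂ}

theorem acc_norm (u : ℂ → E) (c s : ℂ) : ‖s‖ - ‖u s - (s, c)‖ ≤ ‖u s‖ := by
  have h1 : ‖s‖ ≤ ‖((s, c) : E)‖ := norm_fst_le ((s, c) : E)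
  have h2 := norm_sub_norm_le ((s, c) : E) (u s)
  rw [norm_sub_rev] at h2
  linarith

theorem acc_small (h : Leaf J u c) {ε : ℝ} (hε : 0 < ε) :
    ∀ᶠ s in cocompact ℂ, ‖u s - (s, c)‖ ≤ ε := by
  filter_upwards [h.lim.eventually (closedBall_mem_nhds (0 : E) hε)] with s hs
  exact mem_closedBall_zero_iff.1 hs

theorem acc_hol {g : ℂ → ℂ} {s : ℂ} (hg : DifferentiableAt ℝ g s) (h : py g s = I * px g s) :
    DifferentiableAt ℂ g s :=
  differentiableAt_complex_iff_differentiableAt_real.2 ⟨hg, h⟩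

theorem Leaf.proper (h : Leaf J u c) : Tendsto u (cocompact ℂ) (cocompact E) := by
  rw [← Metric.cobounded_eq_cocompact (α := E), ← tendsto_norm_atTop_iff_cobounded]
  refine tendsto_atTop_mono' _ ?_
    (tendsto_atTop_add_const_right _ (-1) (tendsto_norm_cocompact_atTop (E := ℂ)))
  filter_upwards [acc_small h one_pos] with s hs
  have := acc_norm u c s
  linarith

theorem Leaf.far (h : Leaf J u c) {K : Set E} (hK : IsCompact K) (hJ : ∀ x, x ∉ K → J x = J0) :
    ∃ R : ℝ, ∀ s, R ≤ ‖s‖ → s ∉ Dbl u := by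
  have e1 : ∀ᶠ s in cocompact ℂ, u s ∉ K := h.proper.eventually hK.compl_mem_cocompact
  have e2 := e1.and (acc_small h (show (0 : ℝ) < 1 / 4 by norm_num))
  rw [← Metric.cobounded_eq_cocompact, hasBasis_cobounded_norm.eventually_iff] at e2
  obtain ⟨R, -, hR⟩ := e2
  obtain ⟨M, hM⟩ := (isCompact_closedBall (0 : ℂ) R).exists_bound_of_continuousOn
    h.sm.continuous.continuousOn
  have hd : Differentiable ℝ u := h.sm.differentiable (by simp)
  have hb : ∀ z, R ≤ ‖z‖ → ‖(u z).1 - z‖ ≤ 1 / 4 := fun z hz =>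
    (norm_fst_le (u z - (z, c))).trans (hR hz).2
  have hh : ∀ z, R ≤ ‖z‖ → DifferentiableAt ℂ (fun z => (u z).1 - z) z := by
    intro z hz
    refine DifferentiableAt.sub (acc_hol (hd z).fst ?_) differentiableAt_id
    have h1 := (h.hol z (mem_univ z)).1
    rw [hJ _ (hR hz).1, J0_apply] at h1
    have h2 := congrArg Prod.fst h1
    rw [px, py, fderiv.fst (hd z)]
    exact h2
  refine ⟨max (R + 2) (M + 1), fun s hs ⟨s', hne, e⟩ => hne ?_⟩
  have hs1 : R + 2 ≤ ‖s‖ := (le_max_left _ _).trans hs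
  have hs2 : M + 1 ≤ ‖s‖ := (le_max_right _ _).trans hs
  have hs3 : R ≤ ‖s‖ := by linarith
  have hs' : R ≤ ‖s'‖ := by
    by_contra hn
    have h1 := hM s' (mem_closedBall_zero_iff.2 (not_le.1 hn).le)
    have h2 := acc_norm u c s
    have h3 := (hR hs3).2
    rw [e] at h1
    linarith
  have e3 : ((u s').1 - s') - ((u s).1 - s) = -(s' - s) := by
    rw [e]
    ring
  have h4 : ‖s' - s‖ ≤ 1 / 2 := by
    rw [← norm_neg, ← e3]
    have := norm_sub_le ((u s').1 - s') ((u s).1 - s)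
    linarith [hb s' hs', hb s hs3]
  have hfar : ∀ z ∈ closedBall s 1, ∀ w ∈ closedBall z 1, R ≤ ‖w‖ := by
    intro z hz w hw
    have h5 := norm_sub_norm_le s z
    have h6 := norm_sub_norm_le z w
    rw [mem_closedBall, dist_comm, dist_eq_norm] at hz hw
    linarith
  have h7 := (convex_closedBall s 1).norm_image_sub_le_of_norm_deriv_le (𝕜 := ℂ)
    (f := fun z => (u z).1 - z) (C := 1 / 4 / 1)
    (fun z hz => hh z (hfar z hz z (mem_closedBall_self zero_le_one)))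
    (fun z hz => norm_deriv_le_of_forall_mem_sphere_norm_le one_pos
      (DifferentiableOn.diffContOnCl fun w hw => (hh w (hfar z hz w
        (closure_ball_subset_closedBall hw))).differentiableWithinAt)
      fun w hw => hb w (hfar z hz w (sphere_subset_closedBall hw)))
    (mem_closedBall_self zero_le_one)
    (show s' ∈ closedBall s 1 by rw [mem_closedBall, dist_eq_norm]; linarith)
  rw [e3, norm_neg] at h7
  have h8 : ‖s' - s‖ ≤ 0 := by linarith
  exact sub_eq_zero.1 (norm_le_zero_iff.1 h8)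

theorem acc_seq (hu : Continuous u) (hp : Tendsto u (cocompact ℂ) (cocompact E)) {s₀ : ℂ}
    (h1 : ∃ᶠ s in 𝓝[≠] s₀, s ∈ Dbl u) : ∃ (a b : ℕ → ℂ) (s₁ : ℂ), Tendsto a atTop (𝓝[≠] s₀) ∧
      Tendsto b atTop (𝓝 s₁) ∧ u s₁ = u s₀ ∧ ∀ n, b n ≠ a n ∧ u (b n) = u (a n) := by
  obtain ⟨a, ha, hd⟩ := exists_seq_forall_of_frequently h1
  choose b hb using hd
  have ha' : Tendsto (fun n => u (b n)) atTop (𝓝 (u s₀)) :=
    ((hu.tendsto s₀).comp (ha.mono_right nhdsWithin_le_nhds)).congr fun n => (hb n).2.symm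
  obtain ⟨K, hK, hs⟩ := mem_cocompact.1
    (hp (isCompact_closedBall (u s₀) 1).compl_mem_cocompact)
  have hm : ∀ᶠ n in atTop, b n ∈ K := by
    filter_upwards [ha'.eventually (closedBall_mem_nhds (u s₀) one_pos)] with n hn
    by_contra h
    exact hs h hn
  obtain ⟨s₁, -, φ, hφ, hl⟩ := hK.tendsto_subseq' hm.frequently
  exact ⟨a ∘ φ, b ∘ φ, s₁, ha.comp hφ.tendsto_atTop, hl,
    tendsto_nhds_unique ((hu.tendsto s₁).comp hl) (ha'.comp hφ.tendsto_atTop), fun n => hb (φ n)⟩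

theorem dbl_acc (hJ : Acs J) (hu : ContDiff ℝ ∞ u) (hol : JHol J u univ)
    (hp : Tendsto u (cocompact ℂ) (cocompact E)) {s₀ : ℂ} (h : px u s₀ ≠ 0)
    (h1 : ∃ᶠ s in 𝓝[≠] s₀, s ∈ Dbl u) : ∀ᶠ s in 𝓝 s₀, s ∈ Dbl u := by
  obtain ⟨a, b, s₁, ha, hb, e, hab⟩ := acc_seq hu.continuous hp h1
  obtain ⟨V, hV, hV0, hA, hB, C, hC⟩ := imm_chart hJ hu hol h e
  have ha0 : ∀ᶠ n in atTop, a n ≠ s₀ := ha.eventually self_mem_nhdsWithin
  have hVb : ∀ᶠ n in atTop, V (b n) = (a n, 0) :=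
    ((ha.mono_right nhdsWithin_le_nhds).eventually hA).mono fun n hn => hn _ (hab n).2
  have hne : s₁ ≠ s₀ := by
    rintro rfl
    obtain ⟨n, h2, h3⟩ := (hVb.and (hb.eventually hA)).exists
    exact (hab n).1 (congrArg Prod.fst ((h3 _ rfl).symm.trans h2))
  have hb' : Tendsto b atTop (𝓝[≠] s₁) := by
    refine tendsto_nhdsWithin_iff.2 ⟨hb, ?_⟩
    filter_upwards [ha0, hVb] with n h2 h3 h4
    rw [mem_singleton_iff.1 h4, hV0] at h3
    exact h2 (congrArg Prod.fst h3).symm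
  have hV1 : ∀ᶠ s in 𝓝 s₁, ContDiffAt ℝ 1 V s :=
    (hV.of_le (by exact_mod_cast le_top)).eventually (by simp)
  have hz : ∀ᶠ s in 𝓝 s₁, (V s).2 = 0 := by
    refine (ord_dich (D := fun s => (V s).2) (C := C) hV.continuousAt.snd
      (((hV1.and hC).mono fun s hs => ⟨hs.1.snd, hs.2.2⟩).filter_mono
        nhdsWithin_le_nhds)).resolve_right ?_
    rintro ⟨l, c, hc, hl⟩
    refine hc (tendsto_nhds_unique (hl.comp hb') (tendsto_const_nhds.congr' ?_))
    filter_upwards [hVb] with n hn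
    simp [hn]
  have hg : AnalyticAt ℂ (fun s => (V s).1) s₁ := by
    rw [analyticAt_iff_eventually_differentiableAt]
    filter_upwards [hV1, hC, hz] with s h2 h3 h4
    refine acc_hol (h2.differentiableAt one_ne_zero).fst ?_
    have h5 := h3.1
    rw [h4, norm_zero, mul_zero, norm_le_zero_iff, dbar] at h5
    linear_combination (-2 * I) * h5 + py (fun s => (V s).1) s * I_mul_I
  have hg0 : (V s₁).1 = s₀ := by rw [hV0]
  rcases hg.eventually_constant_or_nhds_le_map_nhds with h2 | h2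
  · obtain ⟨n, ⟨h3, h4⟩, h5⟩ := ((ha0.and hVb).and (hb.eventually h2)).exists
    rw [h4, hg0] at h5
    exact absurd h5 h3
  · rw [hg0] at h2
    refine h2 (mem_map.2 ?_)
    have h3 : ∀ᶠ s in 𝓝 s₁, s - (V s).1 ≠ 0 :=
      (continuousAt_id.sub hV.continuousAt.fst).eventually_ne (by simpa [hg0, sub_eq_zero] using hne)
    filter_upwards [hB, hz, h3] with s h4 h5 h6
    exact ⟨s, sub_ne_zero.1 h6, (h4 h5).symm⟩

end Pool.Agent.Lib.MP_7ed551_gt.Cy
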