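import Pool.Agent.Lib.MP_7ed551_gt.Cy.D.Mod

/-! The degree of a map that is close to the model. -/

open scoped ContDiff Topology
open Set Filter Metric Complex

noncomputable section

namespace Pool.Agent.Lib.MP_7ed551_gt.Cy

open Pool.Agent.Lib.MP_ccffa6_gt (px py JHol)

theorem cusp_core {l : ℕ} (hl : 1 ≤ l) {c : ℂ} (hc : c ≠ 0) {u : ℂ → ℂ} {n : ℂ → ℕ}
    (hu : ∀ e ∈ Rt l, ‖u e‖ = 1) (hn : ∀ e ∈ Rt l, 1 ≤ n e) :
    ∃ δ : ℝ, 0 < δ ∧ ∀ (G : E → E) (t : ℝ), 0 < t → ContinuousOn G (closedBall 0 1) →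
      (∀ z ∈ sphere (0 : E) 1, ‖t * (G z).2 - q1 l c z‖ ≤ δ) →
      (∀ z ∈ sphere (0 : E) 1, (G z).2 = 0 → ∃ e ∈ Rt l, ∃ ξ : ℂ, ‖ξ‖ = 1 ∧
        ‖z - (ξ, e * ξ)‖ ≤ δ ∧ ∃ t' : ℝ, 0 < t' ∧ ‖t' * (G z).1 - u e * ξ ^ n e‖ ≤ δ) →
      (∀ z ∈ sphere (0 : E) 1, G z ≠ 0) ∧ 0 < dg G := by
  obtain ⟨R, hR, hRe, hpos⟩ := exists_model hl hc hu hn
  have hq : Continuous (q1 l c) := (contDiff_q1 l c).continuous
  have hun : ∀ e ∈ Rt l, ∀ ξ : ℂ, ‖ξ‖ = 1 → ‖u e * ξ ^ n e‖ = 1 := fun e he ξ hξ => by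
    rw [norm_mul, norm_pow, hu e he, hξ, one_pow, mul_one]
  have hsp : ∀ e ∈ Rt l, ∀ ξ : ℂ, ‖((ξ, e * ξ) : E)‖ = ‖ξ‖ := fun e he ξ => by
    rw [Prod.norm_def, norm_mul, Rt_norm he, one_mul, max_self]
  have h4 : ‖(1 / 4 : ℂ)‖ = 1 / 4 := by simp
  have hK : IsCompact (sphere (0 : E) 1 ∩ {z | R z = 0}) :=
    (isCompact_sphere _ _).inter_right (isClosed_eq hR continuous_const)
  obtain ⟨m, hm, hmq⟩ := hK.exists_forall_le' (f := fun z => ‖q1 l c z‖) (a := 0)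
    hq.norm.continuousOn (by
      rintro ⟨ξ, y⟩ ⟨hz, hz0⟩
      refine norm_pos_iff.2 fun h0 => ?_
      obtain ⟨e, he, hy⟩ := (q1_eq_zero hl hc).1 h0
      obtain rfl : y = e * ξ := hy
      have hξ : ‖ξ‖ = 1 := by rw [← hsp e he, ← mem_sphere_zero_iff_norm]; exact hz
      have h1 : R (ξ, e * ξ) = 0 := hz0
      rw [hRe e he ξ hξ, sub_eq_zero] at h1
      have h2 := hun e he ξ hξ
      rw [h1, h4] at h2
      norm_num at h2)
  obtain ⟨η, hη, hηR⟩ := Metric.uniformContinuousOn_iff_le.1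
    ((isCompact_sphere (0 : E) 1).uniformContinuousOn_of_continuous hR.continuousOn) (1 / 8)
    (by norm_num)
  refine ⟨min (min (m / 2) η) (1 / 8), by positivity, fun G t ht hG h2 h1 => ?_⟩
  have d1 : min (min (m / 2) η) (1 / 8) ≤ m / 2 := (min_le_left _ _).trans (min_le_left _ _)
  have d2 : min (min (m / 2) η) (1 / 8) ≤ η := (min_le_left _ _).trans (min_le_right _ _)
  have d3 : min (min (m / 2) η) (1 / 8) ≤ 1 / 8 := min_le_right _ _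
  have s1 : ∀ z ∈ sphere (0 : E) 1, ∀ τ ∈ Icc (0 : ℝ) 1,
      (1 - τ) • G z + τ • ((R z, (G z).2) : E) ≠ 0 := by
    intro z hz τ hτ h0
    have a1 : (1 - τ) • (G z).1 + τ • R z = 0 := congrArg Prod.fst h0
    have a2 : (1 - τ) • (G z).2 + τ • (G z).2 = 0 := congrArg Prod.snd h0
    rw [← add_smul, sub_add_cancel, one_smul] at a2
    obtain ⟨e, he, ξ, hξ, hzξ, t', ht', hG1⟩ := h1 z hz a2
    have b1 : ‖R z - (u e * ξ ^ n e - 1 / 4)‖ ≤ 1 / 8 := by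
      rw [← hRe e he ξ hξ, ← dist_eq_norm]
      refine hηR z hz _ (mem_sphere_zero_iff_norm.2 ((hsp e he ξ).trans hξ)) ?_
      rw [dist_eq_norm]
      exact hzξ.trans d2
    have b2 : ‖R z - u e * ξ ^ n e‖ ≤ 3 / 8 := by
      have b3 := norm_sub_le (R z - (u e * ξ ^ n e - 1 / 4)) (1 / 4)
      rw [h4, show R z - (u e * ξ ^ n e - 1 / 4) - 1 / 4 = R z - u e * ξ ^ n e by ring] at b3
      linarith
    refine seg_ne ht' ?_ hτ a1
    have b4 := norm_sub_le (t' * (G z).1 - u e * ξ ^ n e) (R z - u e * ξ ^ n e)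
    rw [sub_sub_sub_cancel_right] at b4
    have b5 := norm_sub_le (R z) (R z - u e * ξ ^ n e)
    rw [sub_sub_cancel, hun e he ξ hξ] at b5
    linarith
  have s2 : ∀ z ∈ sphere (0 : E) 1, ∀ τ ∈ Icc (0 : ℝ) 1,
      (1 - τ) • ((R z, (G z).2) : E) + τ • ((R z, q1 l c z) : E) ≠ 0 := by
    intro z hz τ hτ h0
    have a1 : (1 - τ) • R z + τ • R z = 0 := congrArg Prod.fst h0
    have a2 : (1 - τ) • (G z).2 + τ • q1 l c z = 0 := congrArg Prod.snd h0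
    rw [← add_smul, sub_add_cancel, one_smul] at a1
    refine seg_ne ht ?_ hτ a2
    have b1 := hmq z ⟨hz, a1⟩
    have b2 := h2 z hz
    linarith
  have c1 : ContinuousOn (fun z => ((R z, (G z).2) : E)) (closedBall 0 1) :=
    hR.continuousOn.prodMk hG.snd
  refine ⟨fun z hz h0 => s1 z hz 0 ⟨le_rfl, zero_le_one⟩ (by simp [h0]), ?_⟩
  rw [dg_line hG c1 s1, dg_line c1 (hR.prodMk hq).continuousOn s2]
  exact hpos

theorem dg_limit {G : E → E} {H : ℕ → E → E} (hG : ContinuousOn G (closedBall 0 1))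
    (h : ∀ z ∈ sphere (0 : E) 1, G z ≠ 0)
    (hH : ∀ᶠ n in atTop, ContinuousOn (H n) (closedBall 0 1) ∧ ∀ z ∈ closedBall (0 : E) 1, H n z ≠ 0)
    (hl : TendstoUniformlyOn H G atTop (sphere 0 1)) : dg G = 0 := by
  obtain ⟨m, hm, hmG⟩ := (isCompact_sphere (0 : E) 1).exists_forall_le' (f := fun z => ‖G z‖)
    (a := 0) (hG.mono sphere_subset_closedBall).norm fun z hz => norm_pos_iff.2 (h z hz)
  obtain ⟨k, ⟨h1, h2⟩, h3⟩ := (hH.and (Metric.tendstoUniformlyOn_iff.1 hl m hm)).exists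
  rw [dg_line hG h1, dg_zero h1 h2]
  intro z hz τ hτ h0
  have e : G z = τ • (G z - H k z) := by
    rw [← sub_eq_zero, ← h0, smul_sub, sub_smul, one_smul]
    abel
  have h4 := h3 z hz
  have h5 := hmG z hz
  rw [dist_eq_norm] at h4
  have h6 : ‖G z‖ ≤ ‖G z - H k z‖ := by
    conv_lhs => rw [e]
    rw [norm_smul, Real.norm_of_nonneg hτ.1]
    exact mul_le_of_le_one_left (norm_nonneg _) hτ.2
  linarith

end Pool.Agent.Lib.MP_7ed551_gt.Cy
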