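import Pool.Agent.Lib.MP_7ed551_gt.Cy.D.Defs

/-! Divided differences. -/

open scoped ContDiff Topology
open Set Filter Metric Complex

noncomputable section

namespace Pool.Agent.Lib.MP_7ed551_gt.Cy

open Pool.Agent.Lib.MP_ccffa6_gt (px py JHol)

variable {F : Type} [NormedAddCommGroup F] [NormedSpace ℝ F] [NormedSpace ℂ F] [IsScalarTower ℝ ℂ F]

omit [NormedSpace ℂ F] [IsScalarTower ℝ ℂ F] in
theorem div_aux {A A' : F →L[ℝ] F} {x x' : F} {α β γ L t : ℝ} (h1 : ‖A - A'‖ ≤ α)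
    (h2 : ‖x‖ ≤ L * t) (h3 : ‖A'‖ ≤ β) (h4 : ‖x - x'‖ ≤ γ * t) :
    ‖A x - A' x'‖ ≤ (α * L + β * γ) * t := by
  have e : A x - A' x' = (A - A') x + A' (x - x') := by simp
  rw [e, add_mul, mul_assoc, mul_assoc]
  exact norm_add_le_of_le ((A - A').le_of_opNorm_le_of_le h1 h2) (A'.le_of_opNorm_le_of_le h3 h4)

omit [IsScalarTower ℝ ℂ F] in
theorem div_sub {M M' : ℂ → F →L[ℝ] F} {v v' : ℂ → F} {U : Set ℂ} {α β γ L : ℝ} (hU : Convex ℝ U)
    (hv : Differentiable ℝ v) (hv' : Differentiable ℝ v') (h1 : ∀ s ∈ U, ‖M s - M' s‖ ≤ α)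
    (h2 : ∀ s ∈ U, ‖fderiv ℝ v s‖ ≤ L) (h3 : ∀ s ∈ U, ‖M' s‖ ≤ β)
    (h4 : ∀ s ∈ U, ‖fderiv ℝ v s - fderiv ℝ v' s‖ ≤ γ) {z : E} (hz : z ∈ U ×ˢ U) :
    ‖dd M v z - dd M' v' z‖ ≤ α * L + β * γ := by
  unfold dd
  split_ifs with e
  · exact (div_aux (h1 _ hz.1) ((fderiv ℝ v z.1).le_of_opNorm_le (h2 _ hz.1) 1) (h3 _ hz.1)
      ((fderiv ℝ v z.1 - fderiv ℝ v' z.1).le_of_opNorm_le (h4 _ hz.1) 1)).trans_eq (by simp)
  · have k1 := hU.norm_image_sub_le_of_norm_fderiv_le (fun s _ => hv s) h2 hz.2 hz.1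
    have k2 := hU.norm_image_sub_le_of_norm_fderiv_le (f := v - v') (fun s _ => (hv s).sub (hv' s))
      (fun s hs => by rw [fderiv_sub (hv s) (hv' s)]; exact h4 s hs) hz.2 hz.1
    rw [Pi.sub_apply, Pi.sub_apply, sub_sub_sub_comm] at k2
    rw [← smul_sub, norm_smul, norm_inv, inv_mul_le_iff₀ (norm_pos_iff.2 (sub_ne_zero.2 e)),
      mul_comm]
    exact div_aux (h1 _ hz.2) k1 (h3 _ hz.2) k2

theorem div_lin {A : F →L[ℝ] F} {D : ℂ →L[ℝ] F} (h : A (D I) = I • A (D 1)) (z : E) :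
    dd (fun _ => A) D z = A (D 1) := by
  have k (w : ℂ) : A (D w) = w • A (D 1) := by
    have e : w = w.re • (1 : ℂ) + w.im • I := by simp
    conv_rhs => rw [e, add_smul, smul_assoc, smul_assoc, one_smul, ← h]
    conv_lhs => rw [e, map_add, map_add, map_smul, map_smul, map_smul, map_smul]
  unfold dd
  split_ifs with e
  · rw [px, D.fderiv]
  · rw [← map_sub, k, inv_smul_smul₀ (sub_ne_zero.2 e)]

theorem div_fd (l : ℕ) (c s h : ℂ) :
    fderiv ℝ (fun s : ℂ => c / (l + 1) * s ^ (l + 1)) s h = c * s ^ l * h := by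
  have h1 : (l : ℂ) + 1 ≠ 0 := Nat.cast_add_one_ne_zero l
  rw [(((hasDerivAt_pow (l + 1) s).const_mul (c / (l + 1))).hasFDerivAt.restrictScalars ℝ).fderiv]
  simp
  field_simp

theorem div_hom (l : ℕ) (c : ℂ) (r : ℝ) (z : E) : q1 l c (r • z) = r ^ l * q1 l c z := by
  rw [q1, q1, mul_left_comm, Finset.mul_sum _ _ ((r : ℂ) ^ l)]
  refine congrArg _ (Finset.sum_congr rfl fun i hi => ?_)
  obtain ⟨k, rfl⟩ := Nat.exists_eq_add_of_le (Nat.lt_succ_iff.1 (Finset.mem_range.1 hi))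
  simp only [Prod.smul_fst, Prod.smul_snd, real_smul, Nat.add_sub_cancel_left]
  ring

theorem dd_cont {M : ℂ → F →L[ℝ] F} {v : ℂ → F} {U : Set ℂ} (hM : Continuous M)
    (hv : ContDiff ℝ 1 v) (h : ∀ s ∈ U, M s (py v s) = I • M s (px v s)) :
    ContinuousOn (dd M v) (U ×ˢ U) := by
  rintro ⟨a, b⟩ hz
  refine ContinuousAt.continuousWithinAt ?_
  by_cases e : a = b
  · subst e
    have hD := hv.continuous_fderiv one_ne_zero
    refine nhds_basis_closedBall.tendsto_right_iff.2 fun ε hε => ?_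
    have hK : 0 < ‖fderiv ℝ v a‖ + 1 + ‖M a‖ := by positivity
    have hη := div_pos hε hK
    obtain ⟨r, hr, H⟩ := Metric.eventually_nhds_iff_ball.1
      (((hM.tendsto a).eventually (closedBall_mem_nhds _ hη)).and
        (((hD.tendsto a).eventually (closedBall_mem_nhds _ hη)).and
          ((hD.norm.tendsto a).eventually (eventually_le_nhds (lt_add_one _)))))
    filter_upwards [prod_mem_nhds (ball_mem_nhds a hr) (ball_mem_nhds a hr)] with z hz'
    have := div_sub (M := M) (M' := fun _ => M a) (v' := fderiv ℝ v a) (convex_ball a r)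
      (hv.differentiable one_ne_zero) (fderiv ℝ v a).differentiable
      (fun s hs => mem_closedBall_iff_norm.1 (H s hs).1) (fun s hs => (H s hs).2.2)
      (fun _ _ => le_rfl)
      (fun s hs => by
        rw [ContinuousLinearMap.fderiv]
        exact mem_closedBall_iff_norm.1 (H s hs).2.1) hz'
    rw [div_lin (h a hz.1)] at this
    rw [mem_closedBall_iff_norm, dd.eq_1 M v (a, a), if_pos rfl]
    exact this.trans_eq (by field_simp)
  · have hc := hv.continuous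
    have k : ContinuousAt (fun z : E => (z.1 - z.2)⁻¹ • M z.2 (v z.1 - v z.2)) (a, b) :=
      ((continuous_fst.sub continuous_snd).continuousAt.inv₀ (sub_ne_zero.2 e)).smul (by fun_prop)
    refine k.congr ?_
    filter_upwards [(isOpen_ne_fun continuous_fst continuous_snd).mem_nhds (x := (a, b)) e]
      with z hz'
    rw [dd, if_neg hz']

theorem dd_sub {M M' : ℂ → F →L[ℝ] F} {v v' : ℂ → F} {U : Set ℂ} {α β γ L : ℝ} (hU : Convex ℝ U)
    (hv : Differentiable ℝ v) (hv' : Differentiable ℝ v') (h1 : ∀ s ∈ U, ‖M s - M' s‖ ≤ α)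
    (h2 : ∀ s ∈ U, ‖fderiv ℝ v s‖ ≤ L) (h3 : ∀ s ∈ U, ‖M' s‖ ≤ β)
    (h4 : ∀ s ∈ U, ‖fderiv ℝ v s - fderiv ℝ v' s‖ ≤ γ) {z : E} (hz : z ∈ U ×ˢ U) :
    ‖dd M v z - dd M' v' z‖ ≤ α * L + β * γ := by
  exact div_sub hU hv hv' h1 h2 h3 h4 hz

theorem dd_q1 (l : ℕ) (c : ℂ) (z : E) :
    dd (fun _ => ContinuousLinearMap.id ℝ ℂ) (fun s => c / (l + 1) * s ^ (l + 1)) z = q1 l c z := by
  obtain ⟨a, b⟩ := z
  unfold dd
  split_ifs with e
  · obtain rfl : a = b := e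
    rw [q1_diag, px, div_fd]
    simp
  · rw [smul_eq_mul, inv_mul_eq_iff_eq_mul₀ (sub_ne_zero.2 e), mul_comm, q1_mul, mul_sub]
    rfl

theorem Fib.dd_snd {J : E → E →L[ℝ] E} (hJ : Fib J) {v : ℂ → E} (hv : Differentiable ℝ v) (z : E) :
    (dd (fun s => MJ (J (v s))) v z).2 = dd (fun s => mJ (J (v s))) (fun s => (v s).2) z := by
  unfold dd
  split_ifs with e
  · rw [hJ.MJ_snd, px, px, fderiv.snd (hv _)]
    rfl
  · rw [Prod.smul_snd, hJ.MJ_snd]
    rfl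

theorem MJ_inj {j : E →L[ℝ] E} (h : ‖j - J0‖ < 2) {v : E} (h0 : MJ j v = 0) : v = 0 := by
  rw [MJ_apply, smul_eq_zero, sub_eq_zero] at h0
  have h1 : v = I • j v := h0.resolve_left (by norm_num)
  have h2 : (j - J0) v = (-2 * I) • v := by
    have : I • v = -j v := by
      conv_lhs => rw [h1, smul_smul, I_mul_I, neg_one_smul]
    rw [sub_apply, J0_apply, mul_smul, this]
    module
  have h3 := (j - J0).le_opNorm v
  rw [h2, norm_smul] at h3
  simp only [neg_mul, norm_neg, norm_mul, norm_ofNat, norm_I, mul_one] at h3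
  by_contra hv
  nlinarith [norm_pos_iff.2 hv]

theorem Ord.dd_lim {a : ℂ → ℂ} {l : ℕ} {c : ℂ} (h : Ord a l c) {m : ℂ → ℂ →L[ℝ] ℂ}
    (hm : Tendsto m (𝓝 0) (𝓝 (ContinuousLinearMap.id ℝ ℂ))) {δ : ℝ} (hδ : 0 < δ) :
    ∀ᶠ r : ℝ in 𝓝[>] 0, ∀ z ∈ closedBall (0 : E) 1,
      ‖((r ^ l)⁻¹ : ℝ) * dd m a (r • z) - q1 l c z‖ ≤ δ := by
  have hK : 0 < ‖c‖ + 2 := by positivity
  have hη := div_pos hδ hK
  obtain ⟨ρ, hρ, H⟩ := Metric.eventually_nhds_iff_ball.1
    ((hm.eventually (closedBall_mem_nhds _ hη)).and ((h.der 1 one_pos).and (h.der _ hη)))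
  filter_upwards [Ioo_mem_nhdsGT hρ] with r hr z hz
  have hs {s : ℂ} (hs : s ∈ closedBall (0 : ℂ) r) : ‖s‖ ^ l ≤ r ^ l :=
    pow_le_pow_left₀ (norm_nonneg _) (mem_closedBall_zero_iff.1 hs) l
  have hb := closedBall_subset_ball (x := (0 : ℂ)) hr.2
  have hl := pow_pos hr.1 l
  have hz' : r • z ∈ closedBall (0 : ℂ) r ×ˢ closedBall (0 : ℂ) r := by
    rw [closedBall_prod_same, Prod.mk_zero_zero, mem_closedBall_zero_iff, norm_smul,
      Real.norm_of_nonneg hr.1.le]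
    exact mul_le_of_le_one_right hr.1.le (mem_closedBall_zero_iff.1 hz)
  have k := div_sub (M := m) (M' := fun _ => ContinuousLinearMap.id ℝ ℂ) (v := a)
    (v' := fun s => c / (l + 1) * s ^ (l + 1)) (L := (‖c‖ + 1) * r ^ l)
    (γ := δ / (‖c‖ + 2) * r ^ l) (convex_closedBall 0 r) (h.sm.differentiable (by simp))
    (by fun_prop) (fun s hs => mem_closedBall_iff_norm.1 (H s (hb hs)).1) (fun s hs' => ?_)
    (fun _ _ => ContinuousLinearMap.norm_id_le) (fun s hs' => ?_) hz'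
  · rw [dd_q1, div_hom] at k
    have e : ((r ^ l)⁻¹ : ℝ) * dd m a (r • z) - q1 l c z =
        ((r ^ l)⁻¹ : ℝ) * (dd m a (r • z) - r ^ l * q1 l c z) := by
      have : (r : ℂ) ≠ 0 := ofReal_ne_zero.2 hr.1.ne'
      push_cast
      field_simp
    rw [e, norm_mul, norm_real, Real.norm_of_nonneg (inv_pos.2 hl).le, inv_mul_le_iff₀ hl]
    exact k.trans_eq (by field_simp; ring)
  · refine ContinuousLinearMap.opNorm_le_bound _ (by positivity) fun w => ?_
    refine (norm_le_insert' _ (c * s ^ l * w)).trans ?_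
    have := (H s (hb hs')).2.1 w
    rw [norm_mul, norm_mul, norm_pow]
    nlinarith [mul_le_mul_of_nonneg_left (hs hs') (by positivity : 0 ≤ (‖c‖ + 1) * ‖w‖)]
  · refine ContinuousLinearMap.opNorm_le_bound _ (by positivity) fun w => ?_
    rw [sub_apply, div_fd]
    refine ((H s (hb hs')).2.2 w).trans ?_
    gcongr
    exact mem_closedBall_zero_iff.1 hs'

end Pool.Agent.Lib.MP_7ed551_gt.Cy
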