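import Pool.Agent.Lib.MP_7ed551_gt.Cy.D.Br
import Pool.Agent.Lib.MP_7ed551_gt.Cy.D.Div
import Pool.Agent.Lib.MP_7ed551_gt.Cy.D.Core

/-! The divided difference along the sheets. -/

open scoped ContDiff Topology
open Set Filter Metric Complex

noncomputable section

namespace Pool.Agent.Lib.MP_7ed551_gt.Cy

open Pool.Agent.Lib.MP_ccffa6_gt (px py JHol)

variable {J : E → E →L[ℝ] E} {v : ℂ → E} {l : ℕ} {c : ℂ}

theorem asy_scale {p : E → Prop} (h : ∀ᶠ x in 𝓝 (0 : E), p x) :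
    ∀ᶠ r : ℝ in 𝓝[>] 0, ∀ z ∈ closedBall (0 : E) 1, p (r • z) := by
  obtain ⟨ε, hε, h⟩ := Metric.eventually_nhds_iff_ball.1 h
  filter_upwards [Ioo_mem_nhdsGT hε] with r hr z hz
  refine h _ (mem_ball_zero_iff.2 ?_)
  rw [norm_smul, Real.norm_of_nonneg hr.1.le]
  exact (mul_le_of_le_one_right hr.1.le (mem_closedBall_zero_iff.1 hz)).trans_lt hr.2

theorem asy_ne {r : ℝ} (hr : 0 < r) {z : E} (hz : z ∈ sphere (0 : E) 1) : r • z ≠ 0 :=
  smul_ne_zero hr.ne' (ne_zero_of_mem_unit_sphere ⟨z, hz⟩)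

theorem sheet_lim {a σ g : ℂ → ℂ} {e b : ℂ} {n : ℕ} (hσ : Sheet a σ e) (he : ‖e‖ = 1) (hb : b ≠ 0)
    (hg : Tendsto (fun s => g s / s ^ n) (𝓝[≠] 0) (𝓝 b)) {δ : ℝ} (hδ : 0 < δ) :
    ∀ᶠ r : ℝ in 𝓝[>] 0, ∀ z ∈ sphere (0 : E) 1, (r • z).2 = σ (r • z).1 → ∃ ξ : ℂ, ‖ξ‖ = 1 ∧
      ‖z - (ξ, e * ξ)‖ ≤ δ ∧ ∃ t' : ℝ, 0 < t' ∧ ‖t' * g (r • z).1 - b / ‖b‖ * ξ ^ n‖ ≤ δ := by
  have hb' := norm_pos_iff.2 hb
  have h1 := eventually_nhdsWithin_iff.1 ((hσ.lim.eventually (closedBall_mem_nhds e (half_pos hδ))).and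
    (hg.eventually (closedBall_mem_nhds b (mul_pos hδ hb'))))
  filter_upwards [asy_scale (continuous_fst.continuousAt.tendsto.eventually h1),
    self_mem_nhdsWithin] with r H (hr : 0 < r) z hz e1
  have s0 : (r • z).1 ≠ 0 := fun e0 => asy_ne hr hz (Prod.ext e0 (by rw [e1, e0, hσ.zero]; rfl))
  obtain ⟨h2, h3⟩ := H z (sphere_subset_closedBall hz) s0
  rw [mem_sphere_zero_iff_norm, Prod.norm_def] at hz
  obtain ⟨x, y⟩ := z
  simp only [Prod.smul_mk, real_smul, dist_eq_norm] at *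
  have hx := norm_pos_iff.2 (right_ne_zero_of_mul s0)
  have x1 : ‖x‖ ≤ 1 := (le_max_left _ _).trans_eq hz
  obtain ⟨ξ, n1, e2⟩ : ∃ ξ : ℂ, ‖ξ‖ = 1 ∧ x = ‖x‖ * ξ :=
    ⟨x / ‖x‖, by simp [hx.ne'], (mul_div_cancel₀ _ (ofReal_ne_zero.2 hx.ne')).symm⟩
  have r0 := ofReal_ne_zero.2 hr.ne'
  have a1 : ‖y - e * x‖ ≤ δ / 2 := by
    rw [show y - e * x = (r * y / (r * x) - e) * x by
      have := right_ne_zero_of_mul s0
      field_simp, norm_mul, e1]
    exact (mul_le_of_le_one_right (norm_nonneg _) x1).trans h2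
  have a2 : ‖x - ξ‖ ≤ δ / 2 := by
    have := norm_le_norm_add_norm_sub' y (e * x)
    rw [norm_mul, he, one_mul] at this
    rw [show x - ξ = ((‖x‖ - 1 : ℝ) : ℂ) * ξ by rw [ofReal_sub, sub_mul, ← e2]; simp, norm_mul, n1,
      norm_real, mul_one, Real.norm_of_nonpos (sub_nonpos.2 x1)]
    rcases max_choice ‖x‖ ‖y‖ with e | e <;> linarith
  refine ⟨ξ, n1, max_le (a2.trans (half_le_self hδ.le)) ?_, 1 / (‖b‖ * (r * ‖x‖) ^ n),
    by positivity, ?_⟩
  · have := norm_add_le (y - e * x) (e * (x - ξ))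
    rw [norm_mul, he, show y - e * x + e * (x - ξ) = y - e * ξ by ring] at this
    exact this.trans (by linarith)
  · have b0 := ofReal_ne_zero.2 hb'.ne'
    have x0 := ofReal_ne_zero.2 hx.ne'
    have ξ0 : ξ ≠ 0 := norm_ne_zero_iff.1 (n1 ▸ one_ne_zero)
    have : (r * x) ^ n = (r * ‖x‖) ^ n * ξ ^ n := by rw [← mul_pow, mul_assoc, ← e2]
    rw [show ((1 / (‖b‖ * (r * ‖x‖) ^ n) : ℝ) : ℂ) * g (r * x) - b / ‖b‖ * ξ ^ n =
      (g (r * x) / (r * x) ^ n - b) * ξ ^ n / ‖b‖ by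
        rw [this]
        push_cast
        field_simp, norm_div, norm_mul, norm_pow, n1, one_pow, mul_one, norm_real, norm_norm,
      div_le_iff₀ hb']
    exact h3

theorem Fib.dd_deg (hJ : Fib J) (hv : Cv J v) (ha : Ord (fun s => (v s).2) l c)
    (h0 : fderiv ℝ v 0 = 0) (hB : ¬∀ᶠ s in 𝓝[≠] (0 : ℂ), s ∈ Dbl v) :
    ∀ᶠ r : ℝ in 𝓝[>] 0,
      ContinuousOn (fun z => dd (fun s => MJ (J (v s))) v (r • z)) (closedBall 0 1) ∧
      (∀ z ∈ sphere (0 : E) 1, dd (fun s => MJ (J (v s))) v (r • z) ≠ 0) ∧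
      0 < dg fun z => dd (fun s => MJ (J (v s))) v (r • z) := by
  have vd : Differentiable ℝ v := hv.sm.differentiable (by simp)
  obtain ⟨σ, hσ, hs⟩ := ha.sheets
  choose! n b hn hb hl using fun e he => hJ.br_ord hv ha (hσ e he) he h0 hB
  obtain ⟨δ, hδ, H⟩ := cusp_core (ha.pos (by rw [fderiv.snd (vd 0), h0]; rfl)) ha.ne
    (u := fun e => b e / ‖b e‖) (fun e he => by simp [hb e he]) hn
  have hJc : Continuous fun s => J (v s) := hJ.sm.continuous.comp hv.sm.continuous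
  have hm : Tendsto (fun s => mJ (J (v s))) (𝓝 0) (𝓝 (ContinuousLinearMap.id ℝ ℂ)) :=
    (contDiff_mJ.continuous.comp hJc).tendsto' _ _ (by
      rw [Function.comp_apply, hv.zero, hJ.zero]
      exact ContinuousLinearMap.ext mJ_J0)
  have e0 : ∀ᶠ s in 𝓝 (0 : ℂ), py v s = J (v s) (px v s) ∧ (∀ h, mJ (J (v s)) h = 0 → h = 0) ∧
      (s ≠ 0 → px (fun s => (v s).2) s ≠ 0) := by
    filter_upwards [hv.hol, hm.eventually (ball_mem_nhds _ one_pos),
      eventually_nhdsWithin_iff.1 ha.px_ne] with s a1 a2 a3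
    refine ⟨a1, fun h e => by_contra fun h0 => ?_, a3⟩
    have := (mJ (J (v s)) - ContinuousLinearMap.id ℝ ℂ).le_opNorm h
    rw [dist_eq_norm] at a2
    simp only [sub_apply, e, ContinuousLinearMap.id_apply, zero_sub,
      norm_neg] at this
    nlinarith [norm_pos_iff.2 h0]
  filter_upwards [ha.dd_lim hm hδ, (Rt_finite l).eventually_all.2 fun e he =>
    sheet_lim (hσ e he) (Rt_norm he) (hb e he) (hl e he) hδ, asy_scale hs,
    asy_scale ((continuous_fst.continuousAt.tendsto.eventually e0).and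
      (continuous_snd.continuousAt.tendsto.eventually e0)), self_mem_nhdsWithin]
    with r e1 e2 e3 e4 (hr : 0 < r)
  have hc : ContinuousOn (fun z => dd (fun s => MJ (J (v s))) v (r • z)) (closedBall 0 1) :=
    (dd_cont (U := {s | py v s = J (v s) (px v s)}) (contDiff_MJ.continuous.comp hJc)
      (hv.sm.of_le (by simp)) fun s (h : _ = _) => by rw [h]; exact MJ_j (hJ.sq _) _).comp
      (continuous_const_smul r).continuousOn fun z hz => ⟨(e4 z hz).1.1, (e4 z hz).2.1⟩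
  refine ⟨hc, H _ (r ^ l)⁻¹ (by positivity) hc (fun z hz => ?_) fun z hz e => ?_⟩
  · rw [hJ.dd_snd vd]
    exact e1 z (sphere_subset_closedBall hz)
  have hz' := sphere_subset_closedBall hz
  rw [hJ.dd_snd vd, dd] at e
  split_ifs at e with d
  · refine absurd ((e4 z hz').1.2.1 _ e) ((e4 z hz').1.2.2 fun a => asy_ne hr hz ?_)
    exact Prod.ext a (d.symm.trans a)
  have a := sub_eq_zero.1 ((e4 z hz').2.2.1 _
    ((smul_eq_zero.1 e).resolve_left (inv_ne_zero (sub_ne_zero.2 d))))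
  obtain ⟨e, he, a'⟩ := (e3 z hz' a).resolve_left d
  refine ⟨e, he, ?_⟩
  have := e2 e he z hz a'
  rwa [← a', div_eq_inv_mul, show ((r • z).1 - (r • z).2)⁻¹ * ((v (r • z).1).1 - (v (r • z).2).1) =
    (dd (fun s => MJ (J (v s))) v (r • z)).1 by
      rw [dd, if_neg d, show v (r • z).1 - v (r • z).2 = ((v (r • z).1).1 - (v (r • z).2).1, 0) from
        Prod.ext rfl (sub_eq_zero.2 a), hJ.MJ_fib]
      rfl] at this

end Pool.Agent.Lib.MP_7ed551_gt.Cy
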