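import Pool.Agent.Lib.MP_7ed551_gt.Cy.D.Defs

/-! Complex bases; pushing a structure forward. -/

open scoped ContDiff Topology
open Set Filter Metric Complex

noncomputable section

namespace Pool.Agent.Lib.MP_7ed551_gt.Cy

open Pool.Agent.Lib.MP_ccffa6_gt (px py JHol)

/-- The complex line through `e`. -/
def basA (j : E →L[ℝ] E) (e : E) : ℂ →L[ℝ] E := reCLM.smulRight e + imCLM.smulRight (j e)

theorem basA_apply (j : E →L[ℝ] E) (e : E) (z : ℂ) : basA j e z = z.re • e + z.im • j e := rfl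

theorem basA_j {j : E →L[ℝ] E} (h : ∀ v, j (j v) = -v) (e : E) (z : ℂ) :
    j (basA j e z) = basA j e (I * z) := by
  rw [basA_apply, basA_apply, map_add, map_smul, map_smul, h, I_mul_re, I_mul_im]
  module

theorem bas_norm {j : E →L[ℝ] E} (h : ∀ v, j (j v) = -v) (e : E) (z : ℂ) :
    z.re • basA j e z - z.im • j (basA j e z) = normSq z • e := by
  rw [basA_apply, map_add, map_smul, map_smul, h, normSq_apply]
  module

theorem exists_cbasis {j : E →L[ℝ] E} (h : ∀ v, j (j v) = -v) {e : E} (he : e ≠ 0) :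
    ∃ L : E ≃L[ℝ] E, (∀ v, j (L v) = L (I • v)) ∧ L (1, 0) = e := by
  have hr : LinearMap.range (basA j e : ℂ →ₗ[ℝ] E) ≠ ⊤ := fun h0 => by
    have h1 := LinearMap.finrank_range_le (basA j e : ℂ →ₗ[ℝ] E)
    rw [h0, finrank_top, Module.finrank_prod, finrank_real_complex] at h1
    omega
  obtain ⟨e', he'⟩ : ∃ e', e' ∉ LinearMap.range (basA j e : ℂ →ₗ[ℝ] E) :=
    not_forall.1 fun h0 => hr (Submodule.eq_top_iff'.2 h0)
  have hi : Function.Injective (((basA j e).coprod (basA j e') : E →L[ℝ] E) : E →ₗ[ℝ] E) := by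
    refine (injective_iff_map_eq_zero _).2 fun v hv => ?_
    have h0 : basA j e v.1 + basA j e' v.2 = 0 := hv
    have h2 : v.2 = 0 := by
      by_contra h2
      have h3 := bas_norm h e' v.2
      rw [eq_neg_of_add_eq_zero_right h0, map_neg, basA_j h] at h3
      refine he' ((Submodule.smul_mem_iff _ (normSq_pos.2 h2).ne').1 (h3 ▸ ?_))
      exact Submodule.sub_mem _ (Submodule.smul_mem _ _ (Submodule.neg_mem _ ⟨_, rfl⟩))
        (Submodule.smul_mem _ _ (Submodule.neg_mem _ ⟨_, rfl⟩))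
    rw [h2, map_zero, add_zero] at h0
    have h3 := bas_norm h e v.1
    rw [h0, map_zero, smul_zero, smul_zero, sub_zero] at h3
    exact Prod.ext (normSq_eq_zero.1 ((smul_eq_zero.1 h3.symm).resolve_right he)) h2
  refine ⟨(LinearEquiv.ofInjectiveEndo _ hi).toContinuousLinearEquiv, fun v => ?_, ?_⟩
  · change j (basA j e v.1 + basA j e' v.2) = basA j e (I * v.1) + basA j e' (I * v.2)
    rw [map_add, basA_j h, basA_j h]
  · change basA j e 1 + basA j e' 0 = e
    rw [map_zero, basA_apply, one_re, one_im, one_smul, zero_smul, add_zero, add_zero]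

variable {P Q P' Q' : E → E}

theorem Dfm.symm (h : Dfm P Q) : Dfm Q P := ⟨h.sm', h.sm, h.right, h.left⟩

theorem Dfm.comp (h : Dfm P Q) (h' : Dfm P' Q') :
    Dfm (fun x => P (P' x)) fun x => Q' (Q x) :=
  ⟨h.sm.comp h'.sm, h'.sm'.comp h.sm', fun x => by rw [h.left, h'.left],
    fun x => by rw [h'.right, h.right]⟩

theorem bas_diff {f : E → E} (h : ContDiff ℝ ∞ f) (x : E) : DifferentiableAt ℝ f x :=
  h.differentiable (by simp) x

theorem Dfm.d_left (h : Dfm P Q) (x v : E) : fderiv ℝ Q (P x) (fderiv ℝ P x v) = v := by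
  have e := fderiv_fun_comp x (bas_diff h.sm' (P x)) (bas_diff h.sm x)
  rw [funext h.left, fderiv_fun_id] at e
  exact (congrArg (fun L : E →L[ℝ] E => L v) e).symm

theorem Dfm.d_right (h : Dfm P Q) (x v : E) : fderiv ℝ P x (fderiv ℝ Q (P x) v) = v := by
  have e := h.symm.d_left (P x) v
  rwa [h.left] at e

theorem dfm_affine (L : E ≃L[ℝ] E) (p : E) :
    Dfm (fun x => L.symm (x - p)) (fun y => p + L y) ∧
      ∀ x v, fderiv ℝ (fun x => L.symm (x - p)) x v = L.symm v := by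
  refine ⟨⟨L.symm.contDiff.comp (contDiff_id.sub contDiff_const), contDiff_const.add L.contDiff,
    fun x => by rw [L.apply_symm_apply, add_sub_cancel],
    fun x => by rw [add_sub_cancel_left, L.symm_apply_apply]⟩, fun x v => ?_⟩
  have e : HasFDerivAt (fun x => L.symm (x - p)) _ x :=
    L.symm.hasFDerivAt.comp x ((hasFDerivAt_id x).sub_const p)
  rw [e.fderiv]
  rfl

/-- The structure `j` at `x`, pushed forward to `P x`. -/
def push (P Q : E → E) (x : E) (j : E →L[ℝ] E) : E →L[ℝ] E :=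
  (fderiv ℝ P x).comp (j.comp (fderiv ℝ Q (P x)))

theorem Dfm.push_d (h : Dfm P Q) (x : E) (j : E →L[ℝ] E) (v : E) :
    push P Q x j (fderiv ℝ P x v) = fderiv ℝ P x (j v) :=
  congrArg (fun w => fderiv ℝ P x (j w)) (h.d_left x v)

theorem Dfm.push_sq (h : Dfm P Q) (x : E) {j : E →L[ℝ] E} (hj : ∀ v, j (j v) = -v) (v : E) :
    push P Q x j (push P Q x j v) = -v := by
  change push P Q x j (fderiv ℝ P x (j (fderiv ℝ Q (P x) v))) = -v
  rw [h.push_d, hj, map_neg, h.d_right]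

theorem Dfm.push_sm (h : Dfm P Q) : ContDiff ℝ ∞ fun y : E × (E →L[ℝ] E) => push P Q y.1 y.2 := by
  have h1 : ContDiff ℝ ∞ (fderiv ℝ P) := h.sm.fderiv_right (m := ∞) (by simp)
  have h2 : ContDiff ℝ ∞ (fderiv ℝ Q) := h.sm'.fderiv_right (m := ∞) (by simp)
  exact (h1.comp contDiff_fst).clm_comp
    (contDiff_snd.clm_comp (h2.comp (h.sm.comp contDiff_fst)))

theorem Dfm.push_comp (h : Dfm P Q) (h' : Dfm P' Q') (x : E) (j : E →L[ℝ] E) :
    push (fun x => P (P' x)) (fun x => Q' (Q x)) x j = push P Q (P' x) (push P' Q' x j) := by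
  rw [push, fderiv_fun_comp x (bas_diff h.sm _) (bas_diff h'.sm x),
    fderiv_fun_comp _ (bas_diff h'.sm' _) (bas_diff h.sm' _), h.left]
  rfl

theorem Dfm.acs (h : Dfm P Q) {J : E → E →L[ℝ] E} (hJ : Acs J) :
    Acs fun y => push P Q (Q y) (J (Q y)) :=
  ⟨h.push_sm.comp (h.sm'.prodMk (hJ.sm.comp h.sm')), fun _ => h.push_sq _ (hJ.sq _)⟩

theorem Dfm.hol (h : Dfm P Q) {u : ℂ → E} {s : ℂ} (hu : DifferentiableAt ℝ u s) {j : E →L[ℝ] E}
    (hj : py u s = j (px u s)) : px (fun s => P (u s)) s = fderiv ℝ P (u s) (px u s) ∧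
      py (fun s => P (u s)) s = push P Q (u s) j (px (fun s => P (u s)) s) := by
  have e := fderiv_fun_comp s (bas_diff h.sm (u s)) hu
  have e1 : px (fun s => P (u s)) s = fderiv ℝ P (u s) (px u s) := by
    rw [px, e]
    rfl
  refine ⟨e1, ?_⟩
  rw [e1, h.push_d, ← hj, py, e]
  rfl

end Pool.Agent.Lib.MP_7ed551_gt.Cy
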