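import Pool.Agent.Lib.MP_7ed551_gt.Cy.D.Root

/-! The sheets of a function of finite order. -/

open scoped ContDiff Topology
open Set Filter Metric Complex

noncomputable section

namespace Pool.Agent.Lib.MP_7ed551_gt.Cy

open Pool.Agent.Lib.MP_ccffa6_gt (px py JHol)

variable {a σ : ℂ → ℂ} {l : ℕ} {c e : ℂ}

theorem Sheet.tendsto (h : Sheet a σ e) : Tendsto σ (𝓝 0) (𝓝 0) := by
  have h1 := h.lim.mul (tendsto_nhdsWithin_of_tendsto_nhds (s := {0}ᶜ) tendsto_id)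
  rw [mul_zero] at h1
  have h2 : ContinuousAt σ 0 := continuousWithinAt_compl_self.1 (by
    rw [ContinuousWithinAt, h.zero]
    exact h1.congr' (eventually_mem_nhdsWithin.mono fun s hs => div_mul_cancel₀ _ hs))
  simpa only [h.zero] using h2.tendsto

theorem Sheet.tendsto' (h : Sheet a σ e) (he : e ≠ 0) : Tendsto σ (𝓝[≠] 0) (𝓝[≠] 0) :=
  tendsto_nhdsWithin_iff.2 ⟨h.tendsto.mono_left nhdsWithin_le_nhds,
    (h.lim.eventually_ne he).mono fun s hs h0 => hs (by rw [mem_singleton_iff.1 h0, zero_div])⟩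

theorem Sheet.ne (h : Sheet a σ e) (he : e ≠ 1) : ∀ᶠ s in 𝓝[≠] (0 : ℂ), σ s ≠ s := by
  filter_upwards [h.lim.eventually_ne he, self_mem_nhdsWithin] with s hs h0 h1
  exact hs (by rw [h1, div_self h0])

theorem sheet_div {f : ℂ → ℂ} (h0 : f 0 = 0) (h : HasFDerivAt f (ContinuousLinearMap.id ℝ ℂ) 0) :
    Tendsto (fun s => f s / s) (𝓝[≠] 0) (𝓝 1) := by
  have h1 := h.isLittleO
  simp only [h0, sub_zero, ContinuousLinearMap.id_apply] at h1
  have h2 := (h1.tendsto_div_nhds_zero.mono_left (nhdsWithin_le_nhds (s := {0}ᶜ))).add_const 1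
  rw [zero_add] at h2
  exact h2.congr' (eventually_mem_nhdsWithin.mono fun s hs => by
    simp only [sub_div, div_self hs, sub_add_cancel])

theorem Ord.sheets (h : Ord a l c) : ∃ σ : ℂ → ℂ → ℂ, (∀ e ∈ Rt l, Sheet a (σ e) e) ∧
    ∀ᶠ z : E in 𝓝 0, a z.1 = a z.2 → z.1 = z.2 ∨ ∃ e ∈ Rt l, z.2 = σ e z.1 := by
  obtain ⟨φ, h0, h1, h2, h3, h4⟩ := h.root
  replace h1 : HasStrictFDerivAt φ (ContinuousLinearEquiv.refl ℝ ℂ : ℂ →L[ℝ] ℂ) 0 := h1
  obtain ⟨Φ, hΦ⟩ : ∃ Φ, Φ = h1.toOpenPartialHomeomorph φ := ⟨_, rfl⟩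
  have e0 : ⇑Φ = φ := hΦ ▸ rfl
  have m0 : (0 : ℂ) ∈ Φ.source := hΦ ▸ h1.mem_toOpenPartialHomeomorph_source
  have m1 : (0 : ℂ) ∈ Φ.target := by simpa only [e0, h0] using Φ.map_source m0
  have s0 : Φ.symm 0 = 0 := by simpa only [e0, h0] using Φ.left_inv m0
  have d0 : HasFDerivAt Φ.symm (ContinuousLinearMap.id ℝ ℂ) 0 :=
    Φ.hasFDerivAt_symm (f' := ContinuousLinearEquiv.refl ℝ ℂ) m1 (by
      rw [s0, e0]
      exact h1.hasFDerivAt)
  have l1 := sheet_div h0 h1.hasFDerivAt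
  have l2 := sheet_div s0 d0
  have t1 : Tendsto φ (𝓝 0) (𝓝 0) := by simpa only [h0] using h1.continuousAt.tendsto
  have t2 : Tendsto Φ.symm (𝓝 0) (𝓝 0) := by simpa only [s0] using d0.continuousAt.tendsto
  have t3 : Tendsto Φ.symm (𝓝[≠] 0) (𝓝[≠] 0) := tendsto_nhdsWithin_iff.2
    ⟨t2.mono_left nhdsWithin_le_nhds, (l2.eventually_ne one_ne_zero).mono fun s hs h0 =>
      hs (by rw [mem_singleton_iff.1 h0, zero_div])⟩
  have s1 : ∀ᶠ y in 𝓝[≠] (0 : ℂ), ContDiffAt ℝ ∞ Φ.symm y := by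
    filter_upwards [nhdsWithin_le_nhds (Φ.open_target.mem_nhds m1), t3.eventually h3,
      t3.eventually (h2.eventually (Units.isOpen.mem_nhds isUnit_one))] with y a1 a2 ⟨A, a3⟩
    exact Φ.contDiffAt_symm (f₀' := ContinuousLinearEquiv.ofUnit A) a1
      (e0 ▸ (a2.differentiableAt (by simp)).hasFDerivAt.congr_fderiv a3.symm) (e0 ▸ a2)
  refine ⟨fun e s => Φ.symm (e * φ s), fun e he => ?_, ?_⟩
  · have he0 : e ≠ 0 := norm_ne_zero_iff.1 (Rt_norm he ▸ one_ne_zero)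
    have t4 : Tendsto (fun s => e * φ s) (𝓝 0) (𝓝 0) := by simpa using t1.const_mul e
    have t5 : Tendsto (fun s => e * φ s) (𝓝[≠] 0) (𝓝[≠] 0) := tendsto_nhdsWithin_iff.2
      ⟨t4.mono_left nhdsWithin_le_nhds, (l1.eventually_ne one_ne_zero).mono fun s hs =>
        mul_ne_zero he0 fun h0 => hs (by rw [h0, zero_div])⟩
    refine ⟨by simp only [h0, mul_zero, s0], ?_, ?_, ?_⟩
    · have l3 := (l2.comp t5).mul (l1.const_mul e)
      rw [one_mul, mul_one] at l3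
      refine l3.congr' ((t5.eventually self_mem_nhdsWithin).mono fun s hs => ?_)
      simp only [Function.comp, ← mul_div_assoc, div_mul_cancel₀ _ hs]
    · filter_upwards [h4, (t2.comp t4).eventually h4,
        t4.eventually (Φ.open_target.mem_nhds m1)] with s a1 a2 a3
      have a4 := Φ.right_inv a3
      rw [e0] at a4
      rw [a1, Function.comp_apply] at *
      rw [a2, a4, mul_pow, he.1, one_mul]
    · filter_upwards [h3, t5.eventually s1] with s a1 a2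
      exact a2.comp s (contDiffAt_const.mul a1)
  · have m2 := Φ.open_source.mem_nhds m0
    have c0 : c / (l + 1) ≠ 0 := div_ne_zero h.ne (Nat.cast_add_one_ne_zero l)
    filter_upwards [continuous_fst.continuousAt.eventually (h4.and m2),
      continuous_snd.continuousAt.eventually (h4.and m2)] with z ⟨a1, a2⟩ ⟨b1, b2⟩ a3
    rw [a1, b1, mul_right_inj' c0] at a3
    refine or_iff_not_imp_left.2 fun a4 => ?_
    have a5 : φ z.1 ≠ φ z.2 := fun a5 => a4 (Φ.injOn a2 b2 (e0 ▸ a5))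
    have a6 : φ z.1 ≠ 0 := fun a6 => a5 (by
      rw [a6, zero_pow l.succ_ne_zero] at a3
      rw [a6, pow_eq_zero_iff l.succ_ne_zero |>.1 a3.symm])
    refine ⟨φ z.2 / φ z.1, ⟨by rw [div_pow, ← a3, div_self (pow_ne_zero _ a6)],
      fun a7 => a5 (eq_of_div_eq_one a7).symm⟩, ?_⟩
    rw [div_mul_cancel₀ _ a6, ← e0, Φ.left_inv b2]

end Pool.Agent.Lib.MP_7ed551_gt.Cy
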