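import Pool.Agent.Lib.MP_7ed551_gt.Cy.D.Sim2
import Pool.Agent.Lib.MP_7ed551_gt.Cy.D.Sheet

/-! The difference of two branches. -/

open scoped ContDiff Topology
open Set Filter Metric Complex

noncomputable section

namespace Pool.Agent.Lib.MP_7ed551_gt.Cy

open Pool.Agent.Lib.MP_ccffa6_gt (px py JHol)

variable {J : E → E →L[ℝ] E} {v : ℂ → E} {σ : ℂ → ℂ} {l : ℕ} {c e : ℂ}

theorem br_alg {j j' : E →L[ℝ] E} {X Y : ℂ →L[ℝ] E} {L : ℂ →L[ℝ] ℂ} (hX : X I = j (X 1))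
    (hY : ∀ h, Y (I * h) = j' (Y h)) (h1 : ∀ h : ℂ, j (h, 0) = (I * h, 0))
    (h2 : ∀ h : ℂ, j' (h, 0) = (I * h, 0)) (h3 : ∀ h, (X h - Y (L h)).2 = 0) :
    ((X I - Y (L I)).1 - I * (X 1 - Y (L 1)).1, 0) =
      (j - j') (0, (X 1).2) - Y (L I - I * L 1) := by
  have h4 : ∀ h, ((X h - Y (L h)).1, 0) = X h - Y (L h) := fun h => Prod.ext rfl (h3 h).symm
  have h5 : (j - j') (0, (X 1).2) = j (X 1) - j' (X 1) := by
    rw [show ((0, (X 1).2) : E) = X 1 - ((X 1).1, 0) by ext <;> simp, map_sub]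
    simp [h1, h2]
  have h6 := h2 (X 1 - Y (L 1)).1
  rw [h4, map_sub] at h6
  rw [h5, map_sub, hY, ← hX, ← sub_zero (0 : ℂ), ← Prod.mk_sub_mk, h4, ← h6]
  abel

theorem Fib.br_ineq (hJ : Fib J) (hv : Cv J v) (ha : Ord (fun s => (v s).2) l c)
    (hσ : Sheet (fun s => (v s).2) σ e) (he : e ≠ 0) : ∃ C : ℝ, ∀ᶠ s in 𝓝[≠] (0 : ℂ),
      ‖dbar (fun s => (v s).1 - (v (σ s)).1) s‖ ≤ C * ‖(v s).1 - (v (σ s)).1‖ := by
  obtain ⟨K, t, ht, hK⟩ := ((hJ.sm.contDiffAt (x := v 0)).of_le (m := 1)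
    (by simp)).exists_lipschitzOnWith
  have dv := hv.sm.differentiable (by simp)
  obtain ⟨M, hM⟩ : ∃ M, M = ‖fderiv ℝ v 0‖ + 1 := ⟨_, rfl⟩
  have hc := norm_pos_iff.2 ha.ne
  have he' := norm_pos_iff.2 he
  have h1 : ∀ᶠ s in 𝓝 (0 : ℂ), v s ∈ t ∧ ‖fderiv ℝ v s‖ ≤ M ∧ py v s = J (v s) (px v s) ∧ ∀ h,
      ‖(fderiv ℝ v s h).2 - c * s ^ l * h‖ ≤ ‖c‖ / 2 * ‖s‖ ^ l * ‖h‖ := by
    filter_upwards [hv.sm.continuous.continuousAt.eventually_mem ht,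
      (hv.sm.continuous_fderiv (by simp)).norm.continuousAt.eventually_le_const
        (hM ▸ lt_add_one _), hv.hol, ha.der _ (half_pos hc)] with s a1 a2 a3 a4
    rw [fderiv.snd (dv s)] at a4
    exact ⟨a1, a2, a3, a4⟩
  have h2 : ∀ᶠ s in 𝓝[≠] (0 : ℂ), ‖e‖ / 2 ≤ ‖σ s / s‖ :=
    hσ.lim.norm.eventually_const_le (half_lt_self he')
  refine ⟨K * M + M * (3 * K * (2 / ‖e‖) ^ l), ?_⟩
  filter_upwards [nhdsWithin_le_nhds h1, nhdsWithin_le_nhds (hσ.tendsto.eventually h1), h2,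
    nhdsWithin_le_nhds hσ.eq.eventually_nhds, hσ.sm, self_mem_nhdsWithin,
    (hσ.tendsto' he).eventually self_mem_nhdsWithin]
    with s ⟨a1, a2, a3, a4⟩ ⟨b1, b2, b3, b4⟩ c1 c2 c3 c4 c5
  have d1 := (dv (σ s)).hasFDerivAt.comp s (c3.differentiableAt (by simp)).hasFDerivAt
  have d2 := ((dv s).hasFDerivAt.sub d1)
  have d3 : ∀ h, (fderiv ℝ v s h - fderiv ℝ v (σ s) (fderiv ℝ σ s h)).2 = 0 := fun h =>
    DFunLike.congr_fun (d2.snd.unique ((hasFDerivAt_const 0 s).congr_of_eventuallyEq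
      (c2.mono fun x hx => sub_eq_zero.2 hx.symm))) h
  have d4 := br_alg (j' := J (v (σ s))) a3 (fun h => by
    rw [fderiv_px_py, fderiv_px_py v _ h, b3]
    simp [hJ.sq, add_comm]) (hJ.fib _) (hJ.fib _) d3
  have d5 : dbar (fun s => (v s).1 - (v (σ s)).1) s = I / 2 *
      ((fderiv ℝ v s I - fderiv ℝ v (σ s) (fderiv ℝ σ s I)).1 -
        I * (fderiv ℝ v s 1 - fderiv ℝ v (σ s) (fderiv ℝ σ s 1)).1) := by
    have d5 : fderiv ℝ (fun s => (v s).1 - (v (σ s)).1) s = _ := d2.fst.fderiv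
    rw [dbar, px, py, d5]
    simp only [ContinuousLinearMap.comp_apply, ContinuousLinearMap.coe_fst',
      sub_apply]
    linear_combination (fderiv ℝ v s 1 - fderiv ℝ v (σ s) (fderiv ℝ σ s 1)).1 / 2 * I_mul_I
  generalize fderiv ℝ σ s I - I * fderiv ℝ σ s 1 = lam at d4
  obtain ⟨D, hD⟩ : ∃ D, D = ‖(v s).1 - (v (σ s)).1‖ := ⟨_, rfl⟩
  have D0 : 0 ≤ K * D := by positivity [hD ▸ norm_nonneg _]
  have e1 : ‖(J (v s) - J (v (σ s))) (0, (fderiv ℝ v s 1).2)‖ ≤ K * D * ‖(fderiv ℝ v s 1).2‖ := by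
    refine (ContinuousLinearMap.le_opNorm _ _).trans (mul_le_mul ?_ (by simp) (norm_nonneg _) D0)
    have e1 := hK.norm_sub_le a1 b1
    rwa [Prod.norm_def (v s - _), Prod.snd_sub, c2.self_of_nhds, sub_self, norm_zero,
      max_eq_left (norm_nonneg _), Prod.fst_sub, ← hD] at e1
  have e2 : ‖(fderiv ℝ v s 1).2‖ ≤ M := (norm_snd_le _).trans
    ((ContinuousLinearMap.le_opNorm _ _).trans (by rwa [norm_one, mul_one]))
  have e3 : ‖(fderiv ℝ v s 1).2‖ ≤ 3 / 2 * ‖c‖ * ((2 / ‖e‖) ^ l * ‖σ s‖ ^ l) := by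
    have e3 := (norm_sub_norm_le _ _).trans (a4 1)
    rw [mul_one, norm_one, norm_mul, norm_pow] at e3
    have e4 : ‖s‖ ^ l ≤ (2 / ‖e‖ * ‖σ s‖) ^ l := pow_le_pow_left₀ (norm_nonneg _) (by
      rw [norm_div, le_div_iff₀ (norm_pos_iff.2 c4)] at c1
      rw [div_mul_eq_mul_div, le_div_iff₀ he']
      linarith) l
    rw [mul_pow] at e4
    linarith [mul_le_mul_of_nonneg_left e4 hc.le]
  have e4 : ‖lam‖ ≤ 3 * K * (2 / ‖e‖) ^ l * D := by
    have e4 := (norm_sub_norm_le _ _).trans ((norm_sub_rev _ _).trans_le (b4 lam))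
    rw [norm_mul, norm_mul, norm_pow,
      ← sub_eq_zero.1 ((Prod.snd_sub _ _).symm.trans (congrArg Prod.snd d4).symm)] at e4
    have e5 := (norm_snd_le _).trans (e1.trans (mul_le_mul_of_nonneg_left e3 D0))
    refine le_of_mul_le_mul_left ?_ (mul_pos (half_pos hc) (pow_pos (norm_pos_iff.2 c5) l))
    linarith
  have e5 := (norm_fst_le _).trans ((congrArg norm d4).trans_le (norm_sub_le _ _))
  have e6 := (fderiv ℝ v (σ s)).le_of_opNorm_le_of_le b2 e4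
  rw [d5, norm_mul, ← hD]
  simp only [norm_div, norm_I, norm_ofNat]
  linarith [mul_le_mul_of_nonneg_left e2 D0, norm_nonneg ((fderiv ℝ v s I - fderiv ℝ v (σ s)
    (fderiv ℝ σ s I)).1 - I * (fderiv ℝ v s 1 - fderiv ℝ v (σ s) (fderiv ℝ σ s 1)).1)]

theorem Fib.br_ord (hJ : Fib J) (hv : Cv J v) (ha : Ord (fun s => (v s).2) l c)
    (hσ : Sheet (fun s => (v s).2) σ e) (he : e ∈ Rt l) (h0 : fderiv ℝ v 0 = 0)
    (hB : ¬∀ᶠ s in 𝓝[≠] (0 : ℂ), s ∈ Dbl v) : ∃ (n : ℕ) (b : ℂ), 1 ≤ n ∧ b ≠ 0 ∧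
      Tendsto (fun s => ((v s).1 - (v (σ s)).1) / (s - σ s) / s ^ n) (𝓝[≠] 0) (𝓝 b) := by
  have he0 : e ≠ 0 := norm_ne_zero_iff.1 (Rt_norm he ▸ one_ne_zero)
  obtain ⟨C, h1⟩ := hJ.br_ineq hv ha hσ he0
  have cv := hv.sm.continuous.fst
  have cσ : ContinuousAt σ 0 := by simpa only [ContinuousAt, hσ.zero] using hσ.tendsto
  rcases ord_dich (z := 0) (cv.continuousAt.sub (cv.continuousAt.comp cσ))
    ((hσ.sm.and h1).mono fun s hs => ⟨(hv.sm.fst.contDiffAt.sub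
      (hv.sm.fst.contDiffAt.comp s hs.1)).of_le (by simp), hs.2⟩) with h2 | ⟨m, b, hb, h2⟩
  · refine absurd ?_ hB
    filter_upwards [nhdsWithin_le_nhds h2, nhdsWithin_le_nhds hσ.eq, hσ.ne he.2] with s a1 a2 a3
    exact ⟨σ s, a3, Prod.ext (sub_eq_zero.1 a1).symm a2⟩
  simp only [sub_zero] at h2
  have h3 : Tendsto (fun s => (v s).1 / s) (𝓝[≠] 0) (𝓝 0) := by
    have h3 := (hv.sm.differentiable (by simp) 0).hasFDerivAt.fst.isLittleO
    simp only [h0, hv.zero, sub_zero, Prod.fst_zero, ContinuousLinearMap.comp_zero,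
      zero_apply] at h3
    exact h3.tendsto_div_nhds_zero.mono_left nhdsWithin_le_nhds
  have h4 : Tendsto (fun s => ((v s).1 - (v (σ s)).1) / s) (𝓝[≠] 0) (𝓝 0) := by
    have h4 := h3.sub ((h3.comp (hσ.tendsto' he0)).mul hσ.lim)
    rw [zero_mul, sub_zero] at h4
    refine h4.congr' (((hσ.tendsto' he0).eventually self_mem_nhdsWithin).mono fun s hs => ?_)
    simp only [Function.comp, sub_div, div_mul_div_cancel₀ hs]
  have h5 : Tendsto (fun s : ℂ => s) (𝓝[≠] 0) (𝓝 0) := nhdsWithin_le_nhds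
  obtain _ | _ | m := m
  · refine absurd (tendsto_nhds_unique h2 ?_) hb
    have h6 := h4.mul h5
    rw [mul_zero] at h6
    exact h6.congr' (eventually_mem_nhdsWithin.mono fun s hs => by
      simp [div_mul_cancel₀ _ hs])
  · exact absurd (tendsto_nhds_unique h2 (by simpa using h4)) hb
  have h6 : 1 - e ≠ 0 := sub_ne_zero.2 he.2.symm
  refine ⟨m + 1, b / (1 - e), by omega, div_ne_zero hb h6,
    (h2.div (hσ.lim.const_sub 1) h6).congr' (eventually_mem_nhdsWithin.mono fun s hs => ?_)⟩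
  have h7 : s ≠ 0 := hs
  simp only [Pi.div_apply, Pi.sub_apply, Function.comp]
  rw [one_sub_div h7]
  field_simp
  ring

end Pool.Agent.Lib.MP_7ed551_gt.Cy
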