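import Pool.Agent.Lib.MP_7ed551_gt.Cy.IfaceF
import Pool.Agent.Lib.MP_436e1a_gt.E.DegEx

/-! Local theory of holomorphic curves: definitions. -/

open scoped ContDiff Topology
open Set Filter Metric Complex

noncomputable section

namespace Pool.Agent.Lib.MP_7ed551_gt.Cy

open Pool.Agent.Lib.MP_ccffa6_gt (px py JHol)

/-- A smooth almost complex structure. -/
structure Acs (J : E → E →L[ℝ] E) : Prop where
  sm : ContDiff ℝ ∞ J
  sq : ∀ x v, J x (J x v) = -v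

/-- A structure that is standard at the origin and on the fibres of the second projection. -/
structure Fib (J : E → E →L[ℝ] E) : Prop extends Acs J where
  zero : J 0 = J0
  fib : ∀ x (h : ℂ), J x (h, 0) = (I * h, 0)

/-- A curve through the origin, holomorphic near `0`. -/
structure Cv (J : E → E →L[ℝ] E) (v : ℂ → E) : Prop where
  sm : ContDiff ℝ ∞ v
  hol : ∀ᶠ s in 𝓝 (0 : ℂ), py v s = J (v s) (px v s)
  zero : v 0 = 0

/-- `da = c s ^ l ds` to leading order. -/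
structure Ord (a : ℂ → ℂ) (l : ℕ) (c : ℂ) : Prop where
  sm : ContDiff ℝ ∞ a
  zero : a 0 = 0
  ne : c ≠ 0
  der : ∀ ε : ℝ, 0 < ε → ∀ᶠ s in 𝓝 (0 : ℂ), ∀ h,
    ‖fderiv ℝ a s h - c * s ^ l * h‖ ≤ ε * ‖s‖ ^ l * ‖h‖

/-- `σ` exchanges two sheets of `a`. -/
structure Sheet (a σ : ℂ → ℂ) (e : ℂ) : Prop where
  zero : σ 0 = 0
  lim : Tendsto (fun s => σ s / s) (𝓝[≠] 0) (𝓝 e)
  eq : ∀ᶠ s in 𝓝 (0 : ℂ), a (σ s) = a s
  sm : ∀ᶠ s in 𝓝[≠] (0 : ℂ), ContDiffAt ℝ ∞ σ s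

/-- A diffeomorphism with its inverse. -/
structure Dfm (P Q : E → E) : Prop where
  sm : ContDiff ℝ ∞ P
  sm' : ContDiff ℝ ∞ Q
  left : ∀ x, Q (P x) = x
  right : ∀ x, P (Q x) = x

/-- The map `(1 - i j) / 2`, which turns `j` into `i`. -/
def MJ (j : E →L[ℝ] E) : E →L[ℝ] E := (1 / 2 : ℝ) • (ContinuousLinearMap.id ℝ E - J0.comp j)

/-- The part of `MJ` that acts on the base. -/
def mJ (j : E →L[ℝ] E) : ℂ →L[ℝ] ℂ :=
  (ContinuousLinearMap.snd ℝ ℂ ℂ).comp ((MJ j).comp (ContinuousLinearMap.inr ℝ ℂ ℂ))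

open Classical in
/-- The divided difference. -/
def dd {F : Type} [NormedAddCommGroup F] [NormedSpace ℝ F] [NormedSpace ℂ F]
    (M : ℂ → F →L[ℝ] F) (v : ℂ → F) (z : E) : F :=
  if z.1 = z.2 then M z.1 (px v z.1) else (z.1 - z.2)⁻¹ • M z.2 (v z.1 - v z.2)

/-- The divided difference of `c s ^ (l + 1) / (l + 1)`. -/
def q1 (l : ℕ) (c : ℂ) (z : E) : ℂ :=
  c / (l + 1) * ∑ i ∈ Finset.range (l + 1), z.1 ^ i * z.2 ^ (l - i)

/-- The nontrivial roots of unity of order `l + 1`. -/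
def Rt (l : ℕ) : Set ℂ := {e | e ^ (l + 1) = 1 ∧ e ≠ 1}

/-- A degree theory. -/
def dTh : CSP.DegTh E (MeasureTheory.volume.prod MeasureTheory.volume) := (CSP.exists_degTh E _).some

/-- The degree on the unit bidisc. -/
def dg (F : E → E) : ℤ := dTh.deg F (ball 0 1)

/-- The points at which `u` is not injective. -/
def Dbl (u : ℂ → E) : Set ℂ := {s | ∃ s', s' ≠ s ∧ u s' = u s}

theorem MJ_apply (j : E →L[ℝ] E) (v : E) : MJ j v = (1 / 2 : ℝ) • (v - I • j v) := rfl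

theorem MJ_J0 : MJ J0 = ContinuousLinearMap.id ℝ E := by
  refine ContinuousLinearMap.ext fun v => ?_
  rw [MJ_apply, J0_apply, smul_smul, I_mul_I, neg_one_smul, sub_neg_eq_add, ← two_smul ℝ,
    smul_smul]
  simp

theorem MJ_j {j : E →L[ℝ] E} (h : ∀ v, j (j v) = -v) (v : E) : MJ j (j v) = I • MJ j v := by
  rw [MJ_apply, MJ_apply, h, smul_comm I, smul_sub I, smul_smul I, I_mul_I]
  simp [add_comm, sub_eq_add_neg]

theorem contDiff_MJ : ContDiff ℝ ∞ MJ :=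
  (contDiff_const.sub (contDiff_const.clm_comp contDiff_id)).const_smul _

theorem contDiff_mJ : ContDiff ℝ ∞ mJ :=
  contDiff_const.clm_comp (contDiff_MJ.clm_comp contDiff_const)

theorem mJ_J0 (h : ℂ) : mJ J0 h = h := by simp [mJ, MJ_J0]

theorem Fib.MJ_fib {J : E → E →L[ℝ] E} (hJ : Fib J) (x : E) (h : ℂ) : MJ (J x) (h, 0) = (h, 0) := by
  rw [MJ_apply, hJ.fib]
  ext
  · simp only [Prod.smul_fst, Prod.fst_sub, smul_eq_mul, real_smul, ← mul_assoc, I_mul_I]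
    push_cast
    ring
  · simp

theorem Fib.MJ_snd {J : E → E →L[ℝ] E} (hJ : Fib J) (x v : E) :
    (MJ (J x) v).2 = mJ (J x) v.2 := by
  rw [show v = (v.1, 0) + (0, v.2) by simp, map_add, hJ.MJ_fib]
  simp [mJ]

theorem fderiv_px_py {F : Type} [NormedAddCommGroup F] [NormedSpace ℝ F] (v : ℂ → F) (s h : ℂ) :
    fderiv ℝ v s h = h.re • px v s + h.im • py v s := by
  rw [px, py, ← map_smul, ← map_smul, ← map_add]
  simp

theorem Rt_finite (l : ℕ) : (Rt l).Finite :=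
  (Polynomial.nthRoots (l + 1) (1 : ℂ)).finite_toSet.subset fun _ he =>
    (Polynomial.mem_nthRoots l.succ_pos).2 he.1

theorem Rt_norm {l : ℕ} {e : ℂ} (he : e ∈ Rt l) : ‖e‖ = 1 :=
  Complex.norm_eq_one_of_pow_eq_one he.1 l.succ_ne_zero

theorem Rt_nonempty {l : ℕ} (hl : 1 ≤ l) : (Rt l).Nonempty :=
  have h := Complex.isPrimitiveRoot_exp (l + 1) l.succ_ne_zero
  ⟨_, h.pow_eq_one, h.ne_one (by omega)⟩

theorem q1_mul (l : ℕ) (c : ℂ) (z : E) :
    q1 l c z * (z.1 - z.2) = c / (l + 1) * (z.1 ^ (l + 1) - z.2 ^ (l + 1)) := by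
  rw [q1, mul_assoc, ← (Commute.all z.1 z.2).geom_sum₂_mul]
  rfl

theorem q1_diag (l : ℕ) (c s : ℂ) : q1 l c (s, s) = c * s ^ l := by
  have h : ∀ i ∈ Finset.range (l + 1), s ^ i * s ^ (l - i) = s ^ l := fun i hi => by
    rw [← pow_add, Nat.add_sub_cancel' (Nat.lt_succ_iff.1 (Finset.mem_range.1 hi))]
  have h1 : (l : ℂ) + 1 ≠ 0 := Nat.cast_add_one_ne_zero l
  rw [q1, Finset.sum_congr rfl h]
  simp only [Finset.sum_const, Finset.card_range, nsmul_eq_mul]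
  push_cast
  field_simp

theorem contDiff_q1 (l : ℕ) (c : ℂ) : ContDiff ℂ ∞ (q1 l c) := by
  unfold q1
  fun_prop

end Pool.Agent.Lib.MP_7ed551_gt.Cy
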