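import Pool.Agent.Lib.MP_7ed551_gt.Cy.D.Defs

/-! The degree on the unit bidisc. -/

open scoped ContDiff Topology
open Set Filter Metric Complex

noncomputable section

namespace Pool.Agent.Lib.MP_7ed551_gt.Cy

open Pool.Agent.Lib.MP_ccffa6_gt (px py JHol)

theorem dg_line {F G : E → E} (hF : ContinuousOn F (closedBall 0 1))
    (hG : ContinuousOn G (closedBall 0 1))
    (h : ∀ z ∈ sphere (0 : E) 1, ∀ τ ∈ Icc (0 : ℝ) 1, (1 - τ) • F z + τ • G z ≠ 0) :
    dg F = dg G := by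
  have c : ContinuousOn (fun p : ℝ × E => (1 - p.1) • F p.2 + p.1 • G p.2)
      (Icc 0 1 ×ˢ closedBall 0 1) :=
    ((continuousOn_const.sub continuousOn_fst).smul (hF.comp continuousOn_snd fun _ h => h.2)).add
      (continuousOn_fst.smul (hG.comp continuousOn_snd fun _ h => h.2))
  have := dTh.htpy (Ω := univ ×ˢ ball 0 1) (isOpen_univ.prod isOpen_ball)
    (c.mono fun p hp => ⟨hp.2.1, ball_subset_closedBall hp.1.2⟩) (by
      have k := isCompact_Icc (a := (0 : ℝ)) (b := 1) |>.prod (isCompact_closedBall (0 : E) 1)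
      have := k.of_isClosed_subset (c.preimage_isClosed_of_isClosed k.isClosed
        (isClosed_singleton (x := 0))) inter_subset_left
      refine Eq.mp (congrArg IsCompact ?_) this
      exact Set.ext fun p => ⟨fun hp => ⟨⟨trivial, (mem_closedBall.1 hp.1.2).lt_of_ne
        fun e => h _ e _ hp.1.1 hp.2⟩, hp.1.1, hp.2⟩,
        fun hp => ⟨⟨hp.2.1, ball_subset_closedBall hp.1.2⟩, hp.2.2⟩⟩)
  simpa only [dg, mem_prod, mem_univ, true_and, ofPred_mem_eq, sub_zero, one_smul, zero_smul, add_zero,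
    sub_self, zero_add] using this

theorem deg_adm {F : E → E} (hF : ContinuousOn F (closedBall 0 1))
    (h : ∀ z ∈ sphere (0 : E) 1, F z ≠ 0) : CSP.Adm F (ball 0 1) := by
  refine ⟨isOpen_ball, hF.mono ball_subset_closedBall, ?_⟩
  have := (isCompact_closedBall (0 : E) 1).of_isClosed_subset (hF.preimage_isClosed_of_isClosed
    isClosed_closedBall (isClosed_singleton (x := 0))) inter_subset_left
  refine Eq.mp (congrArg IsCompact ?_) this
  exact Set.ext fun p => ⟨fun hp => ⟨(mem_closedBall.1 hp.1).lt_of_ne fun e => h _ e hp.2, hp.2⟩,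
    fun hp => ⟨ball_subset_closedBall hp.1, hp.2⟩⟩

theorem dg_zero {F : E → E} (hF : ContinuousOn F (closedBall 0 1))
    (h : ∀ z ∈ closedBall (0 : E) 1, F z ≠ 0) : dg F = 0 :=
  dTh.empty (deg_adm hF fun z hz => h z (sphere_subset_closedBall hz))
    fun z hz => h z (ball_subset_closedBall hz)

theorem det_pos_of_complex {A : E →L[ℂ] E} (h : Function.Injective A) :
    0 < (A.restrictScalars ℝ).det := by
  have := LinearMap.det_restrictScalars (R := ℝ) (f := (A : E →ₗ[ℂ] E))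
  rw [Algebra.norm_complex_apply] at this
  exact (normSq_pos.2 fun e => LinearMap.det_eq_zero_iff_ker_ne_bot.1 e
    (LinearMap.ker_eq_bot.2 h)).trans_eq this.symm

theorem deg_fin {F : E → E} (Z : Finset E) {O : Set E} (h : CSP.Adm F O)
    (hz : ∀ v, v ∈ Z ↔ v ∈ O ∧ F v = 0)
    (hd : ∀ v ∈ Z, ∃ A : E →L[ℝ] E, 0 < A.det ∧ HasFDerivAt F A v) : dTh.deg F O = Z.card := by
  classical
  induction Z using Finset.induction_on generalizing O with
  | empty => exact dTh.empty h fun v hv h0 => by simpa using (hz v).2 ⟨hv, h0⟩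
  | insert a Z ha ih =>
    have ha' := (hz a).1 (Finset.mem_insert_self _ _)
    obtain ⟨r, hr, h1⟩ := nhds_basis_closedBall.eventually_iff.1 (Eventually.and
      (h.1.mem_nhds ha'.1) (Z.finite_toSet.isClosed.isOpen_compl.mem_nhds ha))
    have hb : ball a r ⊆ O := fun v hv => (h1 (ball_subset_closedBall hv)).1
    have h2 : ∀ v ∈ ball a r, F v = 0 ↔ v = a := fun v hv =>
      ⟨fun h0 => (Finset.mem_insert.1 ((hz v).2 ⟨hb hv, h0⟩)).resolve_right
        (h1 (ball_subset_closedBall hv)).2, fun h0 => h0 ▸ ha'.2⟩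
    have h3 : ∀ v, v ∈ Z ↔ v ∈ O \ closedBall a r ∧ F v = 0 := fun v =>
      ⟨fun hv => have := (hz v).1 (Finset.mem_insert_of_mem hv)
        ⟨⟨this.1, fun h4 => (h1 h4).2 hv⟩, this.2⟩,
      fun hv => (Finset.mem_insert.1 ((hz v).2 ⟨hv.1.1, hv.2⟩)).resolve_left
        fun h4 => hv.1.2 (h4 ▸ mem_closedBall_self hr.le)⟩
    have h4 : CSP.Adm F (ball a r) := ⟨isOpen_ball, h.2.1.mono hb,
      ((finite_singleton a).subset fun v hv => (h2 v hv.1).1 hv.2).isCompact⟩
    have h5 : CSP.Adm F (O \ closedBall a r) := ⟨h.1.sdiff isClosed_closedBall,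
      h.2.1.mono sdiff_subset, (Z.finite_toSet.subset fun v hv => (h3 v).2 hv).isCompact⟩
    obtain ⟨A, a1, a2⟩ := hd a (Finset.mem_insert_self _ _)
    rw [← dTh.excise h (h4.1.union h5.1) (union_subset hb sdiff_subset) fun v hv h0 =>
        (Finset.mem_insert.1 ((hz v).2 ⟨hv, h0⟩)).imp (fun h6 : v = a => h6 ▸ mem_ball_self hr)
          fun h6 => ((h3 v).1 h6).1,
      dTh.add h4 h5 (disjoint_left.2 fun v hv h6 => h6.2 (ball_subset_closedBall hv)),
      Finset.card_insert_of_notMem ha, ih h5 h3 fun v hv => hd v (Finset.mem_insert_of_mem hv),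
      dTh.sign (s := 1) h4 (mem_ball_self hr) h2 a2 (by simpa using a1)]
    simp [add_comm]

theorem dg_pos {F : E → E} (hF : ContinuousOn F (closedBall 0 1))
    (h : ∀ z ∈ sphere (0 : E) 1, F z ≠ 0) (h0 : ∃ z ∈ ball (0 : E) 1, F z = 0)
    (h1 : ∀ z ∈ ball (0 : E) 1, F z = 0 →
      ∃ A : E →L[ℂ] E, Function.Injective A ∧ HasFDerivAt F A z) : 0 < dg F := by
  have a := deg_adm hF h
  have d : ∀ z ∈ {z | z ∈ ball (0 : E) 1 ∧ F z = 0}, ∃ A : E →L[ℝ] E, 0 < A.det ∧
      HasFDerivAt F A z := fun z hz =>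
    let ⟨_, a1, a2⟩ := h1 z hz.1 hz.2
    ⟨_, det_pos_of_complex a1, a2.restrictScalars ℝ⟩
  have f := a.2.2.finite (isDiscrete_iff_nhdsNE.2 fun z hz => by
    obtain ⟨A, a1, a2⟩ := d z hz
    exact inf_principal_eq_bot.2 ((a2.eventually_ne (c := 0) (CSP.dx4_anti a1.ne')).mono
      fun y hy e => hy e.2))
  rw [dg, deg_fin f.toFinset a (fun v => f.mem_toFinset) fun v hv => d v (f.mem_toFinset.1 hv)]
  exact Int.natCast_pos.2 (Finset.card_pos.2 (f.toFinset_nonempty.2 h0))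

theorem seg_ne {a b : ℂ} {t τ : ℝ} (ht : 0 < t) (h : ‖t * a - b‖ < ‖b‖) (hτ : τ ∈ Icc (0 : ℝ) 1) :
    (1 - τ) • a + τ • b ≠ 0 := fun e => by
  have e' : (1 - τ) • (t * a - b) = -((t * τ + (1 - τ)) • b) := by
    simp only [real_smul] at e ⊢
    push_cast at e ⊢
    linear_combination t * e
  have n := congrArg norm e'
  have p := mul_nonneg ht.le hτ.1
  rw [norm_neg, norm_smul, norm_smul, Real.norm_of_nonneg (sub_nonneg.2 hτ.2),
    Real.norm_of_nonneg (add_nonneg p (sub_nonneg.2 hτ.2))] at n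
  obtain rfl | h0 := hτ.1.eq_or_lt
  · simp [h.ne] at n
  · nlinarith [mul_pos (mul_pos ht h0) ((norm_nonneg _).trans_lt h),
      mul_nonneg (sub_nonneg.2 hτ.2) (sub_nonneg.2 h.le)]

end Pool.Agent.Lib.MP_7ed551_gt.Cy
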