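import Pool.Agent.Lib.MP_7ed551_gt.Cy.D.Bas

/-! Fibred coordinates. -/

open scoped ContDiff Topology
open Set Filter Metric Complex

noncomputable section

namespace Pool.Agent.Lib.MP_7ed551_gt.Cy

open Pool.Agent.Lib.MP_ccffa6_gt (px py JHol)

theorem fib_push (L : E ≃L[ℝ] E) (p x : E) (j : E →L[ℝ] E) (v : E) :
    push (fun x => L.symm (x - p)) (fun y => p + L y) x j v = L.symm (j (L v)) := by
  have h := (dfm_affine L p).1.push_d x j (L v)
  rwa [(dfm_affine L p).2, (dfm_affine L p).2, L.symm_apply_apply] at h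

theorem fib_leaf {J : E → E →L[ℝ] E} {Ψ P : E → E} (h : Fol J Ψ P) (x : E) (a : ℂ) :
    J (Ψ x) (fderiv ℝ Ψ x (a, 0)) = fderiv ℝ Ψ x (I * a, 0) := by
  have h1 : ∀ a : ℂ, fderiv ℝ (fun ζ => Ψ (ζ, x.2)) x.1 a = fderiv ℝ Ψ x (a, 0) := fun a => by
    have := ((h.sm.differentiable (by simp) (x.1, x.2)).hasFDerivAt.comp x.1
      (hasFDerivAt_prodMk_left (𝕜 := ℝ) x.1 x.2)).fderiv
    exact DFunLike.congr_fun this a
  obtain ⟨h2, h3⟩ := h.hol x.2 x.1 trivial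
  replace h3 := neg_eq_iff_eq_neg.2 h3
  rw [← h1, ← h1, fderiv_px_py, fderiv_px_py, map_add, map_smul, map_smul, ← h2, ← h3]
  simp [add_comm]

theorem exists_fib0 (h : SmallStmt) {J : E → E →L[ℝ] E} (hJ : Acs J) (p : E) :
    ∃ (J' : E → E →L[ℝ] E) (P Q : E → E), Acs J' ∧ (∀ x (h : ℂ), J' x (h, 0) = (I * h, 0)) ∧
      Dfm P Q ∧ ∀ᶠ x in 𝓝 p, J' (P x) = push P Q x (J x) := by
  obtain ⟨L, hL, -⟩ := exists_cbasis (hJ.sq p) (e := (1, 0)) (by simp)
  let χ : ContDiffBump (0 : E) := ⟨1, 2, one_pos, one_lt_two⟩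
  let K : ℝ × E → E →L[ℝ] E := fun q =>
    (L.symm : E →L[ℝ] E).comp ((J (p + (q.1 * χ q.2) • L q.2)).comp (L : E →L[ℝ] E))
  have k0 : ∀ q : ℝ × E, q.1 * χ q.2 = 0 → K q = J0 := fun q hq =>
    ContinuousLinearMap.ext fun v => by simp [K, hq, hL, J0_apply]
  have k1 : ContDiff ℝ ∞ K := contDiff_const.clm_comp ((hJ.sm.comp (contDiff_const.add
    ((contDiff_fst.mul (χ.contDiff.comp contDiff_snd)).smul
      (L.contDiff.comp contDiff_snd)))).clm_comp contDiff_const)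
  have k2 : ∀ q v, K q (K q v) = -v := fun q v => by simp [K, hJ.sq]
  obtain ⟨t, ⟨Ψ, P, f⟩, ht⟩ := (((h K (closedBall 0 2) k1 k2 (isCompact_closedBall _ _)
    (fun q hq => k0 q (by rw [χ.zero_of_le_dist (not_le.1 hq).le, mul_zero]))
    fun x => k0 _ (zero_mul _)).filter_mono (nhdsWithin_le_nhds (s := {0}ᶜ))).and
      self_mem_nhdsWithin).exists
  replace ht : t ≠ 0 := ht
  have d : Dfm P Ψ := ⟨f.sm', f.sm, f.right, f.left⟩
  let L' : E ≃L[ℝ] E := .equivOfInverse (t • (L : E →L[ℝ] E)) (t⁻¹ • (L.symm : E →L[ℝ] E))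
    (fun v => by simp [smul_smul, ht]) fun v => by simp [smul_smul, ht]
  have l1 : ∀ v, L' v = t • L v := fun _ => rfl
  have l2 : ∀ v, L'.symm v = t⁻¹ • L.symm v := fun _ => rfl
  have d' := (dfm_affine L' p).1
  refine ⟨_, _, _, d.acs (J := fun x => K (t, x))
    ⟨k1.comp (contDiff_const.prodMk contDiff_id), fun x => k2 _⟩, fun x a => ?_, d.comp d', ?_⟩
  · change fderiv ℝ P (Ψ x) (K (t, Ψ x) (fderiv ℝ Ψ (P (Ψ x)) (a, 0))) = _
    rw [f.left, fib_leaf f, d.symm.d_left]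
  · have h1 : Tendsto (fun x => L'.symm (x - p)) (𝓝 p) (𝓝 0) :=
      d'.sm.continuous.tendsto' _ _ (by simp)
    filter_upwards [h1.eventually χ.eventuallyEq_one] with x hx
    rw [d.push_comp d', f.right]
    congr 1
    refine ContinuousLinearMap.ext fun v => ?_
    have e : p + (t * χ (L'.symm (x - p))) • L (L'.symm (x - p)) = x := by
      rw [hx, Pi.one_apply, mul_one, ← l1, L'.apply_symm_apply, add_sub_cancel]
    rw [fib_push, l1 v, map_smul, l2 (t • _), map_smul, inv_smul_smul₀ ht]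
    simp only [K, e]
    rfl

theorem exists_fib (h : SmallStmt) {J : E → E →L[ℝ] E} (hJ : Acs J) (p : E) :
    ∃ (J' : E → E →L[ℝ] E) (P Q : E → E), Fib J' ∧ Dfm P Q ∧ P p = 0 ∧
      ∀ᶠ x in 𝓝 p, J' (P x) = push P Q x (J x) := by
  obtain ⟨J₁, P, Q, h1, h2, h3, h4⟩ := exists_fib0 h hJ p
  obtain ⟨L, hL, hL'⟩ := exists_cbasis (h1.sq (P p)) (e := (1, 0)) (by simp)
  have d := (dfm_affine L (P p)).1
  have l : ∀ a : ℂ, L (a, 0) = (a, 0) := fun a => by
    have e : ((a, 0) : E) = a.re • (1, 0) + a.im • I • ((1, 0) : E) := by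
      ext <;> simp
    have e' : L (I • ((1, 0) : E)) = I • (1, 0) := by
      rw [← hL, hL', h2]
      simp
    rw [e, map_add, map_smul, map_smul, e', hL']
  refine ⟨_, _, _, ⟨d.acs h1, ContinuousLinearMap.ext fun v => ?_, fun x a => ?_⟩, d.comp h3,
    by simp, h4.mono fun x hx => ?_⟩
  · rw [fib_push, map_zero, add_zero, hL, L.symm_apply_apply, J0_apply]
  · rw [fib_push, l, h2, L.symm_apply_eq, l]
  · rw [d.push_comp h3, ← hx, d.left]

end Pool.Agent.Lib.MP_7ed551_gt.Cy
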