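import Pool.Agent.Lib.MP_7ed551_gt.Cy.D.Defs

/-! The root of a function of finite order. -/

open scoped ContDiff Topology
open Set Filter Metric Complex

noncomputable section

namespace Pool.Agent.Lib.MP_7ed551_gt.Cy

open Pool.Agent.Lib.MP_ccffa6_gt (px py JHol)

variable {a : ℂ → ℂ} {l : ℕ} {c : ℂ}

theorem Ord.px_ne (h : Ord a l c) : ∀ᶠ s in 𝓝[≠] (0 : ℂ), px a s ≠ 0 := by
  have hc := norm_pos_iff.2 h.ne
  filter_upwards [nhdsWithin_le_nhds (h.der _ (half_pos hc)), self_mem_nhdsWithin] with s hs h0 h1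
  have h2 := hs 1
  rw [show fderiv ℝ a s 1 = 0 from h1] at h2
  simp only [zero_sub, norm_neg, norm_mul, norm_pow, norm_one, mul_one] at h2
  nlinarith [mul_pos hc (pow_pos (norm_pos_iff.2 h0) l)]

theorem Ord.pos (h : Ord a l c) (h0 : fderiv ℝ a 0 = 0) : 1 ≤ l := by
  have hc := norm_pos_iff.2 h.ne
  refine Nat.one_le_iff_ne_zero.2 fun hl => ?_
  have h2 := (h.der _ (half_pos hc)).self_of_nhds 1
  simp [h0, hl] at h2
  linarith

theorem root_pow {φ : ℂ → ℂ} {s : ℂ} (hφ : DifferentiableAt ℝ φ s) (l : ℕ) (c : ℂ) :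
    HasFDerivAt (fun s => c / (l + 1) * φ s ^ (l + 1)) ((c * φ s ^ l) • fderiv ℝ φ s) s := by
  have h1 : (l : ℂ) + 1 ≠ 0 := Nat.cast_add_one_ne_zero l
  refine ((hφ.hasFDerivAt.pow (l + 1)).const_mul _).congr_fderiv (ContinuousLinearMap.ext fun v => ?_)
  simp
  field_simp

theorem Ord.lim (h : Ord a l c) :
    Tendsto (fun s => a s / (c / (l + 1) * s ^ (l + 1))) (𝓝[≠] 0) (𝓝 1) := by
  have h1 : 0 < ‖c / (l + 1)‖ := norm_pos_iff.2 (div_ne_zero h.ne (Nat.cast_add_one_ne_zero l))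
  refine Metric.tendsto_nhds.2 fun ε hε => ?_
  obtain ⟨δ, hδ, h2⟩ := Metric.eventually_nhds_iff_ball.1 (h.der _ (mul_pos (half_pos hε) h1))
  filter_upwards [nhdsWithin_le_nhds (ball_mem_nhds 0 hδ), self_mem_nhdsWithin] with s hs h0
  have h3 := (convex_closedBall (0 : ℂ) ‖s‖).norm_image_sub_le_of_norm_hasFDerivWithin_le
    (f := fun s => a s - c / (l + 1) * s ^ (l + 1)) (C := ε / 2 * ‖c / (l + 1)‖ * ‖s‖ ^ l)
    (fun t _ => ((h.sm.differentiable (by simp) t).hasFDerivAt.sub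
      (root_pow (φ := id) differentiableAt_id l c)).hasFDerivWithinAt)
    (fun t ht => ContinuousLinearMap.opNorm_le_bound _ (by positivity) fun v => by
      have h4 := mem_closedBall_zero_iff.1 ht
      refine le_trans (by simp) ((h2 t (mem_ball_zero_iff.2 (h4.trans_lt
        (mem_ball_zero_iff.1 hs))) v).trans ?_)
      gcongr)
    (mem_closedBall_self (norm_nonneg s)) (mem_closedBall_zero_iff.2 le_rfl)
  have h5 : 0 < ‖c / (l + 1) * s ^ (l + 1)‖ := by
    rw [norm_mul, norm_pow]; exact mul_pos h1 (pow_pos (norm_pos_iff.2 h0) _)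
  rw [dist_eq_norm, div_sub_one (norm_pos_iff.1 h5), norm_div, div_lt_iff₀ h5]
  simp only [h.zero, zero_pow l.succ_ne_zero, mul_zero, sub_zero] at h3
  refine h3.trans_lt ?_
  rw [norm_mul, norm_pow, pow_succ] at h5 ⊢
  nlinarith [mul_pos hε h5]

theorem Ord.root (h : Ord a l c) : ∃ φ : ℂ → ℂ, φ 0 = 0 ∧
    HasStrictFDerivAt φ (ContinuousLinearMap.id ℝ ℂ) 0 ∧
    Tendsto (fderiv ℝ φ) (𝓝[≠] 0) (𝓝 (ContinuousLinearMap.id ℝ ℂ)) ∧
    (∀ᶠ s in 𝓝[≠] (0 : ℂ), ContDiffAt ℝ ∞ φ s) ∧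
    ∀ᶠ s in 𝓝 (0 : ℂ), a s = c / (l + 1) * φ s ^ (l + 1) := by
  have hc := norm_pos_iff.2 h.ne
  have hl : (l : ℂ) + 1 ≠ 0 := Nat.cast_add_one_ne_zero l
  set g := fun s => a s / (c / (l + 1) * s ^ (l + 1)) with hg
  set u := fun s => exp (log (g s) / (l + 1)) with hu
  have hsl : ∀ᶠ s in 𝓝[≠] (0 : ℂ), g s ∈ slitPlane :=
    h.lim.eventually (isOpen_slitPlane.mem_nhds one_mem_slitPlane)
  have hu1 : Tendsto u (𝓝[≠] 0) (𝓝 1) := by
    simpa using ((h.lim.clog one_mem_slitPlane).div_const ((l : ℂ) + 1)).cexp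
  have hne : ∀ s : ℂ, s ≠ 0 → c / (l + 1) * s ^ (l + 1) ≠ 0 := fun s hs =>
    mul_ne_zero (div_ne_zero h.ne hl) (pow_ne_zero _ hs)
  have hsm : ∀ᶠ s in 𝓝[≠] (0 : ℂ), ContDiffAt ℝ ∞ (fun s => s * u s) s := by
    filter_upwards [hsl, self_mem_nhdsWithin] with s hs h0
    exact contDiffAt_id.mul (((((contDiffAt_log hs).restrict_scalars ℝ).comp s
      (h.sm.contDiffAt.mul ((contDiffAt_const.mul (contDiffAt_id.pow _)).inv
      (hne s h0)))).div_const _).cexp)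
  have heq : ∀ᶠ s in 𝓝 (0 : ℂ), a s = c / (l + 1) * (s * u s) ^ (l + 1) := by
    rw [← nhdsNE_sup_pure, eventually_sup, eventually_pure]
    refine ⟨?_, by simp [h.zero]⟩
    filter_upwards [hsl, self_mem_nhdsWithin] with s hs h0
    rw [mul_pow, hu, ← exp_nat_mul, Nat.cast_add_one, mul_div_cancel₀ _ hl,
      exp_log (slitPlane_ne_zero hs), ← mul_assoc, hg, mul_div_cancel₀ _ (hne s h0)]
  have hd0 : HasFDerivAt (fun s => s * u s) (ContinuousLinearMap.id ℝ ℂ) 0 := by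
    have h1 : HasDerivAt (fun s => s * u s) 1 0 := hasDerivAt_iff_tendsto_slope.2
      (hu1.congr' (eventually_mem_nhdsWithin.mono fun s (hs : s ≠ 0) => by
        simp [slope, hs]))
    exact (h1.hasFDerivAt.restrictScalars ℝ).congr_fderiv (by ext; simp)
  have hlim : Tendsto (fderiv ℝ fun s => s * u s) (𝓝[≠] 0) (𝓝 (ContinuousLinearMap.id ℝ ℂ)) := by
    refine Metric.tendsto_nhds.2 fun ε hε => ?_
    have h1 : Tendsto (fun s => (u s ^ l)⁻¹) (𝓝[≠] 0) (𝓝 1) := by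
      simpa using (hu1.pow l).inv₀ (by simp)
    filter_upwards [nhdsWithin_le_nhds (h.der (ε / 4 * ‖c‖) (by positivity)), self_mem_nhdsWithin,
      hsm, nhdsWithin_le_nhds heq.eventually_nhds, Metric.tendsto_nhds.1 h1 (ε / 4) (by positivity),
      h1.norm.eventually_le_const (show ‖(1 : ℂ)‖ < 2 by simp)] with s hs h0 h2 h3 h4 h5
    have h6 := ((root_pow (h2.differentiableAt (by simp)) l c).congr_of_eventuallyEq h3).fderiv
    have h7 : u s ≠ 0 := exp_ne_zero _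
    have h8 : 0 < ‖c‖ * ‖s‖ ^ l := mul_pos hc (pow_pos (norm_pos_iff.2 h0) l)
    rw [dist_eq_norm] at h4 ⊢
    refine (ContinuousLinearMap.opNorm_le_bound _ (M := 3 * ε / 4) (by positivity)
      fun v => ?_).trans_lt (by linarith)
    have h9 : (fderiv ℝ (fun s => s * u s) s - ContinuousLinearMap.id ℝ ℂ) v =
        (fderiv ℝ a s v - c * s ^ l * v) / (c * s ^ l) * (u s ^ l)⁻¹ + ((u s ^ l)⁻¹ - 1) * v := by
      have h10 : s ≠ 0 := h0
      have h11 := h.ne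
      rw [h6]
      simp only [sub_apply, ContinuousLinearMap.id_apply, smul_apply,
        smul_eq_mul, mul_pow]
      field_simp
      ring
    have h12 : ‖(fderiv ℝ a s v - c * s ^ l * v) / (c * s ^ l)‖ ≤ ε / 4 * ‖v‖ := by
      rw [norm_div, norm_mul, norm_pow, div_le_iff₀ h8]
      exact (hs v).trans_eq (by ring)
    rw [h9]
    refine (norm_add_le _ _).trans ?_
    rw [norm_mul, norm_mul]
    nlinarith [mul_le_mul h12 h5 (norm_nonneg _) (by positivity),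
      mul_le_mul_of_nonneg_right h4.le (norm_nonneg v)]
  refine ⟨fun s => s * u s, zero_mul _, ?_, hlim, hsm, heq⟩
  rw [← hd0.fderiv] at hlim ⊢
  refine hasStrictFDerivAt_of_hasFDerivAt_of_continuousAt ?_
    (continuousAt_iff_punctured_nhds.2 hlim)
  rw [← nhdsNE_sup_pure, eventually_sup, eventually_pure]
  exact ⟨hsm.mono fun s hs => (hs.differentiableAt (by simp)).hasFDerivAt,
    hd0.differentiableAt.hasFDerivAt⟩

end Pool.Agent.Lib.MP_7ed551_gt.Cy
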