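import Pool.Agent.Lib.MP_7ed551_gt.Cy.D.Acc
import Pool.Agent.Lib.MP_7ed551_gt.Cy.D.Fib
import Pool.Agent.Lib.MP_7ed551_gt.Cy.D.Tri
import Pool.Agent.Lib.MP_7ed551_gt.Cy.D.Root

/-! A leaf is not locally a multiple cover. -/

open scoped ContDiff Topology
open Set Filter Metric Complex

noncomputable section

namespace Pool.Agent.Lib.MP_7ed551_gt.Cy

open Pool.Agent.Lib.MP_ccffa6_gt (px py JHol)

variable {J : E → E →L[ℝ] E} {u : ℂ → E} {c : ℂ}

theorem cv_of_hol (hu : ContDiff ℝ ∞ u) (hol : JHol J u univ) {s₀ : ℂ} {J' : E → E →L[ℝ] E}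
    {P Q : E → E} (hP : Dfm P Q) (h0 : P (u s₀) = 0)
    (h1 : ∀ᶠ x in 𝓝 (u s₀), J' (P x) = push P Q x (J x)) :
    Cv J' (fun s => P (u (s₀ + s))) ∧
      ∀ s, px (fun s => P (u (s₀ + s))) s = fderiv ℝ P (u (s₀ + s)) (px u (s₀ + s)) := by
  have su : ContDiff ℝ ∞ fun s => u (s₀ + s) := hu.comp (by fun_prop)
  have h2 : ∀ s, fderiv ℝ (fun s => u (s₀ + s)) s = fderiv ℝ u (s₀ + s) := fun s =>
    fderiv_comp_add_left s₀
  have h3 := fun s => hP.hol (su.differentiable (by simp) s) (j := J (u (s₀ + s))) (by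
    rw [px, py, h2]
    exact (hol _ (mem_univ _)).1)
  refine ⟨⟨hP.sm.comp su, ?_, by rwa [add_zero]⟩, fun s => by rw [(h3 s).1, px, h2, px]⟩
  filter_upwards [(su.continuous.tendsto' 0 _ (by rw [add_zero])).eventually h1] with s hs
  rw [hs, (h3 s).2]

theorem glob_sub (s₀ : ℂ) : Tendsto (fun s => s - s₀) (𝓝[≠] s₀) (𝓝[≠] 0) :=
  tendsto_nhdsWithin_iff.2 ⟨tendsto_nhdsWithin_of_tendsto_nhds
    (Continuous.tendsto' (by fun_prop) _ _ (sub_self s₀)),
    eventually_mem_nhdsWithin.mono fun _ hs => sub_ne_zero.2 hs⟩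

theorem glob_ex {p : ℂ → Prop} {s : ℂ} (h : ∀ᶠ z in 𝓝 s, p z) : ∃ z, p z ∧ z ≠ s :=
  ((h.filter_mono nhdsWithin_le_nhds).and (self_mem_nhdsWithin (s := {s}ᶜ))).exists

theorem crit_dich (h : SmallStmt) (hJ : Acs J) (hu : ContDiff ℝ ∞ u) (hol : JHol J u univ)
    (s₀ : ℂ) : (∀ᶠ s in 𝓝 s₀, u s = u s₀) ∨ ∀ᶠ s in 𝓝[≠] s₀, px u s ≠ 0 := by
  obtain ⟨J', P, Q, hF, hP, h0, h1⟩ := exists_fib h hJ (u s₀)
  obtain ⟨hv, h2⟩ := cv_of_hol hu hol hP h0 h1
  have dv := hv.sm.differentiable (by simp)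
  have h3 : (∀ᶠ s in 𝓝[≠] (0 : ℂ), px (fun s => P (u (s₀ + s))) s ≠ 0) →
      ∀ᶠ s in 𝓝[≠] s₀, px u s ≠ 0 := fun h3 =>
    ((glob_sub s₀).eventually h3).mono fun s hs e => hs (by rw [h2, add_sub_cancel, e, map_zero])
  rcases hF.tri hv with h4 | ⟨l, c, h4⟩ | ⟨-, l, c, h4⟩
  · have h5 : Tendsto (fun s => s - s₀) (𝓝 s₀) (𝓝 0) :=
      Continuous.tendsto' (by fun_prop) _ _ (sub_self s₀)
    exact Or.inl ((h5.eventually h4).mono fun s hs => by
      simpa only [hP.left, add_sub_cancel] using congrArg Q (hs.trans h0.symm))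
  · exact Or.inr (h3 (h4.px_ne.mono fun s hs e => hs (by
      rw [px, fderiv.snd (dv s)]
      exact congrArg Prod.snd e)))
  · exact Or.inr (h3 (h4.px_ne.mono fun s hs e => hs (by
      rw [px, fderiv.fst (dv s)]
      exact congrArg Prod.fst e)))

theorem crit_countable (h : SmallStmt) (hJ : Acs J) (hu : ContDiff ℝ ∞ u) (hol : JHol J u univ)
    {s₁ : ℂ} (h1 : s₁ ∉ Dbl u) : {s | px u s = 0}.Countable := by
  have h2 : IsClopen {s | ∀ᶠ s' in 𝓝 s, u s' = u s} := by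
    have h3 : IsOpen {s | ∀ᶠ s' in 𝓝 s, u s' = u s} := isOpen_iff_mem_nhds.2 fun s hs =>
      (hs.eventually_nhds).mono fun s' hs' => hs'.mono fun _ e => e.trans hs'.self_of_nhds.symm
    refine ⟨isClosed_iff_clusterPt.2 fun s hs => (crit_dich h hJ hu hol s).resolve_right fun h4 => ?_,
      h3⟩
    obtain ⟨s', h5, h6⟩ := ((clusterPt_principal_iff_frequently.1 hs).and_eventually
      (eventually_nhdsWithin_iff.1 h4).eventually_nhds).exists
    obtain ⟨z, ⟨h7, h8⟩, h9⟩ := glob_ex (h5.eventually_nhds.and h6)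
    by_cases e : s' = s
    · subst e
      exact h8 h9 (by rw [px, EventuallyEq.fderiv_eq h7]; simp)
    · exact h6.self_of_nhds e (by rw [px, EventuallyEq.fderiv_eq h5]; simp)
  have h3 : ∀ s, ∀ᶠ s' in 𝓝[≠] s, px u s' ≠ 0 := fun s =>
    (crit_dich h hJ hu hol s).resolve_left fun h4 => by
      have h5 : s₁ ∈ {s | ∀ᶠ s' in 𝓝 s, u s' = u s} := h2.eq_univ ⟨s, h4⟩ ▸ mem_univ _
      obtain ⟨s', h6, h7⟩ := glob_ex h5
      exact h1 ⟨s', h7, h6⟩
  have h4 : DiscreteTopology {s | px u s = 0} := discreteTopology_of_noAccPts fun s _ h4 =>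
    ((accPt_iff_frequently_nhdsNE.1 h4).and_eventually (h3 s)).exists.elim fun _ h => h.2 h.1
  exact countable_coe_iff.1 (TopologicalSpace.separableSpace_iff_countable.1 inferInstance)

theorem Leaf.not_dbl (h : SmallStmt) (hJ : Acs J) (hu : Leaf J u c) {K : Set E} (hK : IsCompact K)
    (hK' : ∀ x, x ∉ K → J x = J0) (s₀ : ℂ) : ¬∀ᶠ s in 𝓝[≠] s₀, s ∈ Dbl u := fun h0 => by
  obtain ⟨R, hR⟩ := hu.far hK hK'
  have h1 := crit_countable h hJ hu.sm hu.hol (hR ‖R‖ (by simpa using le_abs_self R))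
  have h2 := h1.dense_compl ℝ
  have h3 := (h1.isPathConnected_compl_of_one_lt_rank
    (by simp [rank_real_complex])).isConnected.isPreconnected
  have h4 : (interior (Dbl u)).Nonempty := by
    obtain ⟨s, h4, h5⟩ := glob_ex (eventually_nhdsWithin_iff.1 h0).eventually_nhds
    exact ⟨s, mem_interior_iff_mem_nhds.2 ((h4.and (isOpen_compl_singleton.mem_nhds h5)).mono
      fun _ h => h.1 h.2)⟩
  have h5 := h3.subset_of_closure_inter_subset isOpen_interior
    (inter_comm _ _ ▸ h2.inter_open_nonempty _ isOpen_interior h4) fun s hs =>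
      mem_interior_iff_mem_nhds.2 (by
        by_cases e : s ∈ interior (Dbl u)
        · exact mem_interior_iff_mem_nhds.1 e
        · exact dbl_acc hJ hu.sm hu.hol hu.proper hs.2 (frequently_nhdsWithin_iff.2
            ((mem_closure_iff_frequently.1 hs.1).mono fun z hz =>
              ⟨interior_subset hz, fun e' => e (mem_singleton_iff.1 e' ▸ hz)⟩)))
  obtain ⟨s, h6, h7⟩ := h2.inter_open_nonempty {s | R < ‖s‖}
    (isOpen_lt continuous_const continuous_norm) (NormedSpace.exists_lt_norm ℝ ℂ R)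
  exact hR s (le_of_lt h6) (interior_subset (h5 h7))

end Pool.Agent.Lib.MP_7ed551_gt.Cy
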