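import Pool.Agent.Lib.MP_7ed551_gt.Cy.D.Bas

/-! A chart along an immersed branch. -/

open scoped ContDiff Topology
open Set Filter Metric Complex

noncomputable section

namespace Pool.Agent.Lib.MP_7ed551_gt.Cy

open Pool.Agent.Lib.MP_ccffa6_gt (px py JHol)

variable {J : E → E →L[ℝ] E}

theorem imm_dbar {V : ℂ → E} {s : ℂ} (hV : DifferentiableAt ℝ V s) :
    ‖dbar (fun s => (V s).1) s‖ ≤ ‖py V s - I • px V s‖ ∧
      ‖dbar (fun s => (V s).2) s‖ ≤ ‖py V s - I • px V s‖ := by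
  have h : ∀ a b : ℂ, ‖(a + I * b) / 2‖ ≤ ‖b - I * a‖ := fun a b => by
    rw [show (a + I * b) / 2 = I / 2 * (b - I * a) by linear_combination a / 2 * I_mul_I, norm_mul,
      norm_div, norm_I, norm_ofNat]
    linarith [norm_nonneg (b - I * a)]
  simp only [dbar, px, py, fderiv.fst hV, fderiv.snd hV]
  exact ⟨(h _ _).trans (norm_fst_le (fderiv ℝ V s I - I • fderiv ℝ V s 1)),
    (h _ _).trans (norm_snd_le (fderiv ℝ V s I - I • fderiv ℝ V s 1))⟩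

theorem chart_ineq (hJ : Acs J) {Θ : E → E} (hΘ : ContDiff ℝ ∞ Θ) {s₀ s₁ : ℂ}
    (hi : Function.Injective (fderiv ℝ Θ (s₀, 0)))
    (h0 : ∀ᶠ s in 𝓝 s₀, ∀ x, J (Θ (s, 0)) (fderiv ℝ Θ (s, 0) x) = fderiv ℝ Θ (s, 0) (I • x))
    {V : ℂ → E} (hV : ContDiffAt ℝ ∞ V s₁) (h1 : V s₁ = (s₀, 0))
    (h2 : ∀ᶠ s in 𝓝 s₁, py (fun s => Θ (V s)) s = J (Θ (V s)) (px (fun s => Θ (V s)) s)) :
    ∃ C : ℝ, ∀ᶠ s in 𝓝 s₁, ‖dbar (fun s => (V s).1) s‖ ≤ C * ‖(V s).2‖ ∧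
      ‖dbar (fun s => (V s).2) s‖ ≤ C * ‖(V s).2‖ := by
  have sd : ContDiff ℝ ∞ (fderiv ℝ Θ) := hΘ.fderiv_right le_rfl
  have sΔ : ContDiff ℝ ∞ fun y => (J (Θ y)).comp (fderiv ℝ Θ y) - (fderiv ℝ Θ y).comp J0 :=
    ((hJ.sm.comp hΘ).clm_comp sd).sub (sd.clm_comp contDiff_const)
  obtain ⟨K, t, ht, hK⟩ := ((sΔ.contDiffAt (x := (s₀, 0))).of_le (m := 1)
    (by simp)).exists_lipschitzOnWith
  obtain ⟨k, hk, h3⟩ := (fderiv ℝ Θ (s₀, 0) : E →ₗ[ℝ] E).exists_antilipschitzWith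
    (LinearMap.ker_eq_bot.2 hi)
  have hk' : (0 : ℝ) < k := hk
  have hV1 := hV.of_le (m := 1) (by simp)
  have c1 : Tendsto V (𝓝 s₁) (𝓝 (s₀, 0)) := h1 ▸ hV.continuousAt
  have c2 : Tendsto (fun s => (V s).1) (𝓝 s₁) (𝓝 s₀) := c1.fst_nhds
  have c3 : ContinuousAt (fun s => ‖fderiv ℝ V s‖) s₁ :=
    (hV1.continuousAt_fderiv one_ne_zero).norm
  obtain ⟨M, hM⟩ : ∃ M, M = ‖fderiv ℝ V s₁‖ + 1 := ⟨_, rfl⟩
  refine ⟨2 * k * (K * M), ?_⟩
  filter_upwards [c1.eventually_mem ht, (c2.prodMk_nhds tendsto_const_nhds).eventually_mem ht,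
    c2.eventually h0, h2, c3.eventually_le_const (hM ▸ lt_add_one _), hV1.eventually (by simp),
    c1.eventually (Metric.continuousAt_iff'.1 sd.continuous.continuousAt _
      (show 0 < (2 * k : ℝ)⁻¹ by positivity))] with s a1 a2 a3 a4 a5 a6 a7
  have d1 := a6.differentiableAt one_ne_zero
  have d2 : fderiv ℝ (fun s => Θ (V s)) s = _ :=
    ((hΘ.differentiable (by simp) _).hasFDerivAt.comp s d1.hasFDerivAt).fderiv
  rw [px, py, d2] at a4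
  have e1 := hK.norm_sub_le a1 a2
  rw [show (J (Θ ((V s).1, 0))).comp (fderiv ℝ Θ ((V s).1, 0)) -
    (fderiv ℝ Θ ((V s).1, 0)).comp J0 = 0 from ContinuousLinearMap.ext fun x =>
      sub_eq_zero.2 (a3 x), sub_zero, show V s - ((V s).1, 0) = (0, (V s).2) by ext <;> simp,
    Prod.norm_mk, norm_zero, max_eq_right (norm_nonneg _)] at e1
  have e2 := ContinuousLinearMap.le_of_opNorm_le_of_le _ e1 (x := px V s) (b := M)
    (((fderiv ℝ V s).le_opNorm 1).trans (by rwa [norm_one, mul_one]))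
  have e3 : fderiv ℝ Θ (V s) (py V s - I • px V s) =
      ((J (Θ (V s))).comp (fderiv ℝ Θ (V s)) - (fderiv ℝ Θ (V s)).comp J0) (px V s) := by
    rw [map_sub]
    exact congrArg (· - _) a4
  rw [← e3] at e2
  obtain ⟨d3, d4⟩ := imm_dbar d1
  generalize py V s - I • px V s = x at e2 d3 d4
  have e4 : ‖x‖ ≤ k * ‖fderiv ℝ Θ (s₀, 0) x‖ := ZeroHomClass.bound_of_antilipschitz _ h3 x
  rw [dist_eq_norm] at a7
  have e5 := ContinuousLinearMap.le_of_opNorm_le _ a7.le x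
  have e6 := norm_sub_norm_le (fderiv ℝ Θ (s₀, 0) x) (fderiv ℝ Θ (V s) x)
  rw [norm_sub_rev] at e6
  have e7 := mul_le_mul_of_nonneg_left (e6.trans e5) hk'.le
  have e8 : k * ((2 * k : ℝ)⁻¹ * ‖x‖) = ‖x‖ / 2 := by field_simp
  have e9 : ‖x‖ ≤ 2 * k * (K * M) * ‖(V s).2‖ := by
    linarith [mul_le_mul_of_nonneg_left e2 hk'.le]
  exact ⟨d3.trans e9, d4.trans e9⟩

theorem exists_chart (hJ : Acs J) {u : ℂ → E} (hu : ContDiff ℝ ∞ u) (hol : JHol J u univ) {s₀ : ℂ}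
    (h : px u s₀ ≠ 0) : ∃ (Θ : E → E) (L : E ≃L[ℝ] E), ContDiff ℝ ∞ Θ ∧ (∀ s, Θ (s, 0) = u s) ∧
      HasFDerivAt Θ (L : E →L[ℝ] E) (s₀, 0) ∧
      ∀ s x, J (Θ (s, 0)) (fderiv ℝ Θ (s, 0) x) = fderiv ℝ Θ (s, 0) (I • x) := by
  obtain ⟨L, h1, h2⟩ := exists_cbasis (hJ.sq (u s₀)) h
  obtain ⟨n, hn⟩ : ∃ n, n = L (0, 1) := ⟨_, rfl⟩
  have s1 : ContDiff ℝ ∞ fun y : E => u y.1 := hu.comp contDiff_fst
  have s2 : ContDiff ℝ ∞ fun y : E => y.2.re := reCLM.contDiff.comp contDiff_snd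
  have s3 : ContDiff ℝ ∞ fun y : E => y.2.im := imCLM.contDiff.comp contDiff_snd
  have s4 : ContDiff ℝ ∞ fun y : E => J (u y.1) n := (hJ.sm.comp s1).clm_apply contDiff_const
  obtain ⟨Θ, hΘ⟩ : ∃ Θ : E → E, Θ = fun y => u y.1 + y.2.re • n + y.2.im • J (u y.1) n := ⟨_, rfl⟩
  have sΘ : ContDiff ℝ ∞ Θ := hΘ ▸ (s1.add (s2.smul contDiff_const)).add (s3.smul s4)
  have h3 : ∀ s x, fderiv ℝ Θ (s, 0) x = x.1.re • px u s + x.1.im • J (u s) (px u s) +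
      x.2.re • n + x.2.im • J (u s) n := fun s x => by
    have h3 := (((hu.differentiable (by simp) s).hasFDerivAt.comp (s, (0 : ℂ)) hasFDerivAt_fst).add
      ((reCLM.hasFDerivAt.comp (s, (0 : ℂ)) hasFDerivAt_snd).smul_const n)).add
      ((imCLM.hasFDerivAt.comp (s, (0 : ℂ)) hasFDerivAt_snd).smul
        (s4.differentiable (by simp) _).hasFDerivAt)
    rw [hΘ]
    refine (DFunLike.congr_fun h3.fderiv x).trans ?_
    simp [fderiv_px_py, (hol s (mem_univ s)).1]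
  have h4 : ∀ s, Θ (s, 0) = u s := fun s => by simp [hΘ]
  refine ⟨Θ, L, sΘ, h4, (sΘ.differentiable (by simp) _).hasFDerivAt.congr_fderiv
    (ContinuousLinearMap.ext fun x => ?_), fun s x => ?_⟩
  · rw [h3, hn, ← h2, h1, h1, ← map_smul, ← map_smul, ← map_smul, ← map_smul, ← map_add, ← map_add,
      ← map_add]
    exact congrArg L (by ext <;> simp)
  · simp only [h3, h4, map_add, map_smul, hJ.sq, Prod.smul_fst, Prod.smul_snd, smul_eq_mul,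
      I_mul_re, I_mul_im]
    module

theorem imm_chart (hJ : Acs J) {u : ℂ → E} (hu : ContDiff ℝ ∞ u) (hol : JHol J u univ) {s₀ s₁ : ℂ}
    (h : px u s₀ ≠ 0) (h1 : u s₁ = u s₀) : ∃ V : ℂ → E, ContDiffAt ℝ ∞ V s₁ ∧ V s₁ = (s₀, 0) ∧
      (∀ᶠ s in 𝓝 s₀, ∀ s', u s' = u s → V s' = (s, 0)) ∧
      (∀ᶠ s' in 𝓝 s₁, (V s').2 = 0 → u (V s').1 = u s') ∧
      ∃ C : ℝ, ∀ᶠ s in 𝓝 s₁, ‖dbar (fun s => (V s).1) s‖ ≤ C * ‖(V s).2‖ ∧
        ‖dbar (fun s => (V s).2) s‖ ≤ C * ‖(V s).2‖ := by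
  obtain ⟨Θ, L, sΘ, h2, h3, h4⟩ := exists_chart hJ hu hol h
  have hn : (∞ : WithTop ℕ∞) ≠ 0 := by simp
  have h5 := sΘ.contDiffAt.hasStrictFDerivAt' h3 hn
  have h6 : u s₁ = Θ (s₀, 0) := h1.trans (h2 s₀).symm
  have h7 : ContDiffAt ℝ ∞ (h5.localInverse Θ L _) (u s₁) :=
    h6 ▸ sΘ.contDiffAt.to_localInverse h3 hn
  have h8 : ∀ᶠ s in 𝓝 s₁, Θ (h5.localInverse Θ L _ (u s)) = u s :=
    hu.continuous.continuousAt.eventually (h6 ▸ h5.eventually_right_inverse)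
  have h9 : h5.localInverse Θ L _ (u s₁) = (s₀, 0) := h6 ▸ h5.localInverse_apply_image
  refine ⟨fun s => h5.localInverse Θ L _ (u s), h7.comp s₁ hu.contDiffAt, h9, ?_,
    h8.mono fun s hs e => ?_, chart_ineq hJ sΘ (h3.fderiv ▸ L.injective) (.of_forall h4)
      (h7.comp s₁ hu.contDiffAt) h9 (h8.eventually_nhds.mono fun s hs => ?_)⟩
  · filter_upwards [(Continuous.prodMk_left (0 : ℂ)).continuousAt.eventually
      h5.eventually_left_inverse] with s hs s' e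
    rw [e, ← h2, hs]
  · refine ((h2 _).symm.trans (congrArg Θ ?_)).trans hs
    exact Prod.ext rfl e.symm
  · rw [px, py, EventuallyEq.fderiv_eq hs, hs.self_of_nhds]
    exact (hol s (mem_univ s)).1

end Pool.Agent.Lib.MP_7ed551_gt.Cy
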