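import Pool.Agent.Lib.MP_7ed551_gt.Cy.D.Deg

/-! The model map. -/

open scoped ContDiff Topology
open Set Filter Metric Complex

noncomputable section

namespace Pool.Agent.Lib.MP_7ed551_gt.Cy

open Pool.Agent.Lib.MP_ccffa6_gt (px py JHol)

theorem mod_zero {l : ℕ} (c : ℂ) {e ξ : ℂ} (he : e ∈ Rt l) (hξ : ξ ≠ 0) : q1 l c (ξ, e * ξ) = 0 := by
  have h := q1_mul l c (ξ, e * ξ)
  simp only [mul_pow, he.1, one_mul, sub_self, mul_zero] at h
  refine (mul_eq_zero.1 h).resolve_right fun h1 => he.2 (mul_right_cancel₀ hξ ?_)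
  rw [one_mul, ← sub_eq_zero.1 h1]

theorem mod_line {f : E → ℂ} {z : E} (hf : DifferentiableAt ℂ f z) (h : E) :
    HasDerivAt (fun t : ℂ => f (z + t • h)) (fderiv ℂ f z h) 0 := by
  have h1 : HasDerivAt (fun t : ℂ => z + t • h) h 0 := by
    simpa using ((hasDerivAt_id' (0 : ℂ)).smul_const h).const_add z
  exact hf.hasFDerivAt.comp_hasDerivAt_of_eq 0 h1 (by simp)

theorem q1_eq_zero {l : ℕ} (hl : 1 ≤ l) {c : ℂ} (hc : c ≠ 0) {z : E} :
    q1 l c z = 0 ↔ ∃ e ∈ Rt l, z.2 = e * z.1 := by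
  have h1 : c / (l + 1) ≠ 0 := div_ne_zero hc (Nat.cast_add_one_ne_zero l)
  have h2 := q1_mul l c z
  obtain ⟨x, y⟩ := z
  constructor
  · intro h
    rw [h, zero_mul, eq_comm, mul_eq_zero_iff_left h1, sub_eq_zero] at h2
    by_cases hx : x = 0
    · obtain ⟨e, he⟩ := Rt_nonempty hl
      refine ⟨e, he, ?_⟩
      simp only [hx, zero_pow l.succ_ne_zero] at h2
      simp only [hx, mul_zero]
      exact eq_zero_of_pow_eq_zero h2.symm
    refine ⟨y / x, ⟨?_, fun h3 => ?_⟩, (div_mul_cancel₀ y hx).symm⟩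
    · rw [div_pow, ← h2, div_self (pow_ne_zero _ hx)]
    · rw [(div_eq_one_iff_eq hx).1 h3, q1_diag] at h
      exact mul_ne_zero hc (pow_ne_zero _ hx) h
  · rintro ⟨e, he, h⟩
    by_cases hx : x = 0
    · simp only [hx, mul_zero] at h
      rw [hx, h, q1_diag, zero_pow (by omega), mul_zero]
    · simp only at h
      rw [h]
      exact mod_zero c he hx

theorem q1_ker {l : ℕ} {c e ξ : ℂ} (hc : c ≠ 0) (he : e ∈ Rt l) (hξ : ξ ≠ 0) {h : E}
    (h0 : fderiv ℂ (q1 l c) (ξ, e * ξ) h = 0) : h.2 = e * h.1 := by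
  have h1 : c / (l + 1) ≠ 0 := div_ne_zero hc (Nat.cast_add_one_ne_zero l)
  have h2 := mod_line ((contDiff_q1 l c).differentiable (by simp) (ξ, e * ξ)) h
  have h3 : HasDerivAt (fun t : ℂ => ξ + t * h.1) h.1 0 := by
    simpa using ((hasDerivAt_id' (0 : ℂ)).mul_const h.1).const_add ξ
  have h4 : HasDerivAt (fun t : ℂ => e * ξ + t * h.2) h.2 0 := by
    simpa using ((hasDerivAt_id' (0 : ℂ)).mul_const h.2).const_add (e * ξ)
  have h5 := h2.fun_mul (h3.fun_sub h4)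
  have h6 := ((h3.fun_pow (l + 1)).fun_sub (h4.fun_pow (l + 1))).const_mul (c / (l + 1))
  have h7 := h5.unique (h6.congr_of_eventuallyEq (Eventually.of_forall fun t =>
    q1_mul l c ((ξ, e * ξ) + t • h)))
  rw [h0, zero_smul, add_zero, mod_zero c he hξ, zero_mul, zero_mul, add_zero, eq_comm,
    mul_eq_zero_iff_left h1] at h7
  simp only [zero_mul, add_zero, Nat.add_sub_cancel, mul_pow] at h7
  have h8 : (((l + 1 : ℕ) : ℂ) * ξ ^ l) * (h.1 - e ^ l * h.2) = 0 := by linear_combination h7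
  rw [mul_eq_zero_iff_left (mul_ne_zero (Nat.cast_ne_zero.2 l.succ_ne_zero) (pow_ne_zero _ hξ)),
    sub_eq_zero] at h8
  rw [h8, ← mul_assoc, ← pow_succ', he.1, one_mul]

theorem exists_R {l : ℕ} {u : ℂ → ℂ} {n : ℂ → ℕ} (hn : ∀ e ∈ Rt l, 1 ≤ n e) :
    ∃ (R : E → ℂ) (ρ : ℝ), Continuous R ∧ 0 < ρ ∧ ρ < 1 / 4 ∧
      (∀ e ∈ Rt l, ∀ ξ : ℂ, ‖ξ‖ ≤ ρ → R (ξ, e * ξ) ≠ 0) ∧
      (∀ e ∈ Rt l, ∀ ξ : ℂ, ρ ≤ ‖ξ‖ → R (ξ, e * ξ) = u e * ξ ^ n e - 1 / 4) ∧
      ∀ z : E, ρ < ‖z.1‖ → DifferentiableAt ℂ R z := by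
  classical
  set S := (Rt_finite l).toFinset with hS
  have hm : ∀ {e}, e ∈ S ↔ e ∈ Rt l := (Rt_finite l).mem_toFinset
  let G : E → ℂ := fun z => ∑ e ∈ S, u e * z.1 ^ n e * (Lagrange.basis S id e).eval z.2
  have hG : Differentiable ℂ G := Differentiable.fun_sum fun e _ =>
    ((differentiable_fst.fun_pow _).const_mul _).fun_mul
      ((Lagrange.basis S id e).differentiable.comp differentiable_snd)
  have h1 : ∀ᶠ x in 𝓝 (0 : ℂ), ∀ y ∈ closedBall (0 : ℂ) 1, ‖G (x, y)‖ < 1 / 4 :=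
    (isCompact_closedBall 0 1).eventually_forall_of_forall_eventually fun y _ => by
      refine hG.continuous.norm.continuousAt.eventually_lt continuousAt_const ?_
      have : G (0, y) = 0 := Finset.sum_eq_zero fun e he => by
        have := hn e (hm.1 he)
        simp only [zero_pow (by omega : n e ≠ 0), mul_zero, zero_mul]
      rw [this]
      norm_num
  obtain ⟨ρ, hρ, h2⟩ := nhds_basis_closedBall.eventually_iff.1
    (h1.and (closedBall_mem_nhds (0 : ℂ) (by norm_num : (0 : ℝ) < 1 / 8)))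
  have h3 : ρ ≤ 1 / 8 := by
    have := (h2 (x := (ρ : ℂ)) (by simp [abs_of_pos hρ])).2
    simpa [abs_of_pos hρ] using this
  let w0 : E → ℂ := fun z => z.2 * (starRingEnd ℂ) z.1 / ((max (‖z.1‖ ^ 2) (ρ ^ 2) : ℝ) : ℂ)
  have h4 : ∀ z : E, 0 < max (‖z.1‖ ^ 2) (ρ ^ 2) := fun z => lt_max_of_lt_right (pow_pos hρ 2)
  have hw0 : Continuous w0 :=
    Continuous.div (by fun_prop) (by fun_prop) fun z => ofReal_ne_zero.2 (h4 z).ne'
  have h5 : ∀ z : E, ρ ≤ ‖z.1‖ → w0 z = z.2 / z.1 := fun z hz => by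
    have h6 : z.1 ≠ 0 := norm_pos_iff.1 (hρ.trans_le hz)
    have h7 : (starRingEnd ℂ) z.1 ≠ 0 := (map_ne_zero _).2 h6
    simp only [w0]
    rw [max_eq_left (pow_le_pow_left₀ hρ.le hz 2), ofReal_pow, ← mul_conj',
      mul_div_mul_right _ _ h7]
  refine ⟨fun z => G (z.1, w0 z) - 1 / 4, ρ,
    (hG.continuous.comp (continuous_fst.prodMk hw0)).sub continuous_const, hρ, by linarith,
    fun e he ξ hξ h => ?_, fun e he ξ hξ => ?_, fun z hz => ?_⟩
  · have h6 := (h2 (x := ξ) (mem_closedBall_zero_iff.2 hξ)).1 (w0 (ξ, e * ξ)) (by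
      rw [mem_closedBall_zero_iff]
      simp only [w0]
      rw [norm_div, norm_mul, norm_mul, Rt_norm he, one_mul, RCLike.norm_conj, norm_real,
        Real.norm_of_nonneg (h4 (ξ, e * ξ)).le, div_le_one (h4 (ξ, e * ξ)), ← sq]
      exact le_max_left _ _)
    rw [sub_eq_zero.1 h] at h6
    norm_num at h6
  · have h6 : ξ ≠ 0 := norm_pos_iff.1 (hρ.trans_le hξ)
    simp only [h5 (ξ, e * ξ) hξ, mul_div_cancel_right₀ e h6, G]
    rw [Finset.sum_eq_single_of_mem e (hm.2 he) fun e' _ hne => ?_]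
    · have := Lagrange.eval_basis_self (v := id) (injOn_id _) (hm.2 he)
      rw [id] at this
      rw [this, mul_one]
    · have := Lagrange.eval_basis_of_ne (v := id) hne (hm.2 he)
      rw [id] at this
      rw [this, mul_zero]
  · have h6 : z.1 ≠ 0 := norm_pos_iff.1 (hρ.trans hz)
    have h7 : DifferentiableAt ℂ (fun z : E => z.2 / z.1) z := by
      simp only [div_eq_mul_inv]
      exact differentiableAt_snd.fun_mul (differentiableAt_fst.fun_inv h6)
    refine DifferentiableAt.congr_of_eventuallyEq (f := fun z : E => G (z.1, z.2 / z.1) - 1 / 4)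
      (((hG _).comp z (differentiableAt_fst.prodMk h7)).sub_const _) ?_
    filter_upwards [continuousAt_const.eventually_lt continuous_fst.norm.continuousAt hz] with w hw
    rw [h5 w hw.le]

theorem exists_model {l : ℕ} (hl : 1 ≤ l) {c : ℂ} (hc : c ≠ 0) {u : ℂ → ℂ} {n : ℂ → ℕ}
    (hu : ∀ e ∈ Rt l, ‖u e‖ = 1) (hn : ∀ e ∈ Rt l, 1 ≤ n e) :
    ∃ R : E → ℂ, Continuous R ∧
      (∀ e ∈ Rt l, ∀ ξ : ℂ, ‖ξ‖ = 1 → R (ξ, e * ξ) = u e * ξ ^ n e - 1 / 4) ∧
      0 < dg fun z => (R z, q1 l c z) := by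
  obtain ⟨R, ρ, hR, hρ, h1, h2, h3, h4⟩ := exists_R (u := u) hn
  have hq := (contDiff_q1 l c).differentiable (by simp)
  have hN : ∀ e ∈ Rt l, ∀ ξ : ℂ, ‖((ξ, e * ξ) : E)‖ = ‖ξ‖ := fun e he ξ => by
    rw [Prod.norm_mk, norm_mul, Rt_norm he, one_mul, max_self]
  refine ⟨R, hR, fun e he ξ hξ => h3 e he ξ (by linarith),
    dg_pos (hR.prodMk hq.continuous).continuousOn ?_ ?_ ?_⟩
  · rintro ⟨ξ, y⟩ hz h
    obtain ⟨e, he, h5⟩ := (q1_eq_zero hl hc).1 (congrArg Prod.snd h)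
    simp only at h5
    subst h5
    rw [mem_sphere_zero_iff_norm, hN e he] at hz
    have h6 : R (ξ, e * ξ) = 0 := congrArg Prod.fst h
    rw [h3 e he ξ (by linarith), sub_eq_zero] at h6
    have h7 := congrArg norm h6
    rw [norm_mul, norm_pow, hz, hu e he] at h7
    norm_num at h7
  · obtain ⟨e, he⟩ := Rt_nonempty hl
    obtain ⟨ξ, hξ⟩ := IsAlgClosed.exists_pow_nat_eq (1 / 4 / u e) (hn e he)
    have h5 := congrArg norm hξ
    rw [norm_pow, norm_div, hu e he] at h5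
    norm_num at h5
    have h6 : ‖ξ‖ < 1 := lt_of_not_ge fun h => by linarith [one_le_pow₀ (n := n e) h]
    have h7 := pow_le_of_le_one (norm_nonneg ξ) h6.le (Nat.one_le_iff_ne_zero.1 (hn e he))
    have h8 : u e ≠ 0 := norm_pos_iff.1 (by rw [hu e he]; exact one_pos)
    refine ⟨(ξ, e * ξ), by rwa [mem_ball_zero_iff, hN e he],
      Prod.ext ?_ ((q1_eq_zero hl hc).2 ⟨e, he, rfl⟩)⟩
    change R (ξ, e * ξ) = 0
    rw [h3 e he ξ (by linarith), hξ, mul_div_cancel₀ _ h8, sub_self]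
  · rintro ⟨ξ, y⟩ - h
    obtain ⟨e, he, h5⟩ := (q1_eq_zero hl hc).1 (congrArg Prod.snd h)
    simp only at h5
    subst h5
    have h6 : ρ < ‖ξ‖ := lt_of_not_ge fun h7 => h2 e he ξ h7 (congrArg Prod.fst h)
    have h7 : ξ ≠ 0 := norm_pos_iff.1 (hρ.trans h6)
    have h8 : u e ≠ 0 := norm_pos_iff.1 (by rw [hu e he]; exact one_pos)
    refine ⟨_, (injective_iff_map_eq_zero _).2 fun w hw => ?_,
      (h4 _ h6).hasFDerivAt.prodMk (hq _).hasFDerivAt⟩
    have h9 := q1_ker hc he h7 (congrArg Prod.snd hw)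
    have h10 : HasDerivAt (fun t : ℂ => ξ + t * w.1) w.1 0 := by
      simpa using ((hasDerivAt_id' (0 : ℂ)).mul_const w.1).const_add ξ
    have h11 := (mod_line (h4 (ξ, e * ξ) h6) w).unique
      ((((h10.fun_pow (n e)).const_mul (u e)).sub_const (1 / 4)).congr_of_eventuallyEq (by
        filter_upwards [continuousAt_const.eventually_lt h10.continuousAt.norm
          (by simpa using h6)] with t ht
        rw [← h3 e he _ ht.le]
        refine congrArg R (Prod.ext rfl ?_)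
        change e * ξ + t * w.2 = e * (ξ + t * w.1)
        rw [h9]
        ring))
    have h12 : fderiv ℂ R (ξ, e * ξ) w = 0 := congrArg Prod.fst hw
    rw [h12, zero_mul, add_zero, eq_comm, mul_eq_zero_iff_left h8, mul_eq_zero_iff_left
      (mul_ne_zero (Nat.cast_ne_zero.2 (Nat.one_le_iff_ne_zero.1 (hn e he)))
        (pow_ne_zero _ h7))] at h11
    exact Prod.ext h11 (by rw [h9, h11, mul_zero]; rfl)

end Pool.Agent.Lib.MP_7ed551_gt.Cy
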