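import Pool.Agent.Lib.MP_7ed551_gt.Cy.D.Defs
import Pool.Agent.Lib.MP_b71113_an.OT.Loc

/-! The similarity principle: the analytic core. -/

open scoped ContDiff Topology
open Set Filter Metric Complex

noncomputable section

namespace Pool.Agent.Lib.MP_7ed551_gt.Cy

open Pool.Agent.Lib.MP_ccffa6_gt (px py JHol)
open Pool.Agent.NapOT (db CT Bd)

theorem dbar_eq_db (h : ℂ → ℂ) : dbar h = db h := rfl

theorem hol_sub_CT {f g : ℂ → ℂ} {U : Set ℂ} {M R : ℝ} (hU : IsOpen U) (hf : ContDiffOn ℝ 1 f U)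
    (hg : Bd M R g) (e : ∀ s ∈ U, db f s = g s) :
    DifferentiableOn ℂ (fun s => f s - CT g s) U := by
  intro x hx
  obtain ⟨K, t, ht, hK⟩ := (hf.contDiffAt (hU.mem_nhds hx)).exists_lipschitzOnWith
  obtain ⟨r, hr, hsub⟩ := Metric.mem_nhds_iff.1 (inter_mem ht (hU.mem_nhds hx))
  have h1 := NapOT.loc_cp (hK.mono fun s hs => (hsub hs).1) hg
    (Eventually.of_forall fun s hs => e s (hsub hs).2)
  exact (h1.differentiableAt (ball_mem_nhds _ hr)).differentiableWithinAt

theorem continuous_CT {g : ℂ → ℂ} {M R : ℝ} (hg : Bd M R g) : Continuous (CT g) := continuous_iff_continuousAt.2 fun x =>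
    NapOT.tendsto_CT (l := 𝓝 x) (k := fun _ => g) (a := fun s => s)
      (Eventually.of_forall fun _ => hg) hg (Eventually.of_forall fun _ => tendsto_const_nhds)
      tendsto_id

theorem tendsto_CT_zero {g : ℂ → ℂ} {M R : ℝ} (hg : Bd M R g) :
    Tendsto (CT g) (cocompact ℂ) (𝓝 0) := by
  have hi := (NapOT.loc_integrable hg).norm
  have h1 : Tendsto (fun ξ : ℂ => ‖ξ‖ - R) (cocompact ℂ) atTop :=
    tendsto_atTop_add_const_right _ (-R) tendsto_norm_cocompact_atTop
  have h2 : Tendsto (fun ξ : ℂ => ‖(Real.pi : ℂ)⁻¹‖ * ((∫ s, ‖g s‖) / (‖ξ‖ - R))) (cocompact ℂ)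
      (𝓝 0) := by
    simpa using (tendsto_const_nhds.div_atTop h1).const_mul ‖(Real.pi : ℂ)⁻¹‖
  refine squeeze_zero_norm' ?_ h2
  filter_upwards [h1.eventually_gt_atTop 0] with ξ hξ
  rw [CT, norm_mul, ← MeasureTheory.integral_div]
  refine mul_le_mul_of_nonneg_left (MeasureTheory.norm_integral_le_of_norm_le (hi.div_const _)
    (Eventually.of_forall fun s => ?_)) (norm_nonneg _)
  rcases lt_or_ge R ‖s‖ with hs | hs
  · simp [hg.out s hs]
  · rw [norm_div]
    refine div_le_div_of_nonneg_left (norm_nonneg _) hξ ?_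
    have h3 := norm_sub_norm_le ξ s
    linarith

/-- The square is complex differentiable at the zeros of `D`. -/
theorem sim1_sq {D k : ℂ → ℂ} {x : ℂ} (hD : DifferentiableAt ℝ D x) (hk : Continuous k)
    (hx : D x = 0) : DifferentiableAt ℂ (fun s => (D s * k s) ^ 2) x := by
  have h1 : D =O[𝓝 x] fun s => s - x := by
    simpa only [hx, sub_zero] using hD.isBigO_sub
  have h2 : (fun s => D s * k s ^ 2) =o[𝓝 x] fun _ => (1 : ℂ) := by
    rw [Asymptotics.isLittleO_one_iff]
    have h3 : ContinuousAt (fun s => D s * k s ^ 2) x :=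
      hD.continuousAt.mul (hk.pow 2).continuousAt
    simpa [ContinuousAt, hx] using h3
  refine HasDerivAt.differentiableAt (f' := 0) (hasDerivAt_iff_isLittleO.2 ?_)
  refine (h1.mul_isLittleO h2).congr (fun s => ?_) fun s => mul_one _
  rw [hx, smul_zero]
  ring



theorem rado {D k : ℂ → ℂ} {U : Set ℂ} (hU : IsOpen U) (hD : ContDiffOn ℝ 1 D U)
    (hk : Continuous k) (h : DifferentiableOn ℂ (fun s => D s * k s) (U ∩ {s | D s ≠ 0})) :
    DifferentiableOn ℂ (fun s => D s * k s) U := by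
  have hd : ∀ x ∈ U, DifferentiableAt ℝ D x := fun x hx =>
    (hD.contDiffAt (hU.mem_nhds hx)).differentiableAt one_ne_zero
  have hne : ∀ x ∈ U, D x ≠ 0 → DifferentiableAt ℂ (fun s => D s * k s) x := fun x hx h0 =>
    h.differentiableAt (inter_mem (hU.mem_nhds hx) ((hd x hx).continuousAt.eventually_ne h0))
  have hsq : DifferentiableOn ℂ (fun s => (D s * k s) ^ 2) U := fun x hx => by
    by_cases h0 : D x = 0
    · exact (sim1_sq (hd x hx) hk h0).differentiableWithinAt
    · exact ((hne x hx h0).pow 2).differentiableWithinAt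
  intro x hx
  refine DifferentiableAt.differentiableWithinAt ?_
  rcases (hsq.analyticAt (hU.mem_nhds hx)).eventually_eq_zero_or_eventually_ne_zero with h1 | h1
  · refine (differentiableAt_const (0 : ℂ)).congr_of_eventuallyEq ?_
    filter_upwards [h1] with s hs
    exact pow_eq_zero_iff two_ne_zero |>.1 hs
  · refine (analyticAt_of_differentiable_on_punctured_nhds_of_continuousAt ?_
      ((hd x hx).continuousAt.mul hk.continuousAt)).differentiableAt
    filter_upwards [h1, nhdsWithin_le_nhds (hU.mem_nhds hx)] with s hs hsU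
    exact hne s hsU fun h0 => hs (by rw [h0, zero_mul, zero_pow two_ne_zero])

end Pool.Agent.Lib.MP_7ed551_gt.Cy
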